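import Mathlib

/-!
A delta-system style lemma for sets of size at most `κ`, with `θ = 2 ^ κ`.
-/

set_option autoImplicit false

universe u

open Cardinal Set

namespace Pool.Agent.Helper24

/-- a surjection-like enumeration of a set of size at most `θ` -/
theorem exists_cover {A T : Type u} [Nonempty A] (v : Set A) (h : #v ≤ #T) :
    ∃ e : T → A, v ⊆ Set.range e := by
  classical
  rcases v.eq_empty_or_nonempty with rfl | ⟨a, ha⟩
  · exact ⟨fun _ => Classical.arbitrary A, by simp⟩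
  · obtain ⟨f⟩ := h
    refine ⟨fun t => if ht : ∃ x : v, f x = t then (ht.choose : A) else a, ?_⟩
    intro x hx
    refine ⟨f ⟨x, hx⟩, ?_⟩
    have hex : ∃ y : v, f y = f ⟨x, hx⟩ := ⟨⟨x, hx⟩, rfl⟩
    simp only [dif_pos hex]
    have := f.injective hex.choose_spec
    rw [this]

/-- The closing-off lemma: a set of size at most `2 ^ κ` closed under a set-valued operation on
subsets of size at most `κ`. -/
theorem exists_closed {A : Type u} [Nonempty A] (κ : Cardinal.{u}) (hκ : ℵ₀ ≤ κ)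
    (v : Set A → Set A) (hv : ∀ r : Set A, #r ≤ κ → #(v r) ≤ 2 ^ κ) :
    ∃ W : Set A, #W ≤ 2 ^ κ ∧ ∀ r : Set A, r ⊆ W → #r ≤ κ → v r ⊆ W := by
  classical
  obtain ⟨T, hT⟩ : ∃ T : Type u, #T = 2 ^ κ := ⟨_, mk_out _⟩
  obtain ⟨K, hK⟩ : ∃ K : Type u, #K = κ := ⟨_, mk_out _⟩
  have hcov : ∀ r : Set A, ∃ e : T → A, #r ≤ κ → v r ⊆ Set.range e := by
    intro r
    by_cases h : #r ≤ κ
    · obtain ⟨e, he⟩ := exists_cover (T := T) (v r) (by rw [hT]; exact hv r h)
      exact ⟨e, fun _ => he⟩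
    · exact ⟨fun _ => Classical.arbitrary A, fun h' => absurd h' h⟩
  choose e he using hcov
  let β : T ⊕ T → Type u := fun x => Sum.elim (fun _ => PEmpty.{u+1}) (fun _ => K) x
  let G : (Σ a, β a → A) → A := fun x => match x with
      | ⟨Sum.inl t, _⟩ => e ∅ t
      | ⟨Sum.inr t, g⟩ => e (Set.range g) t
  let F : WType β → A := WType.elim A G
  have hθκ : (2 ^ κ : Cardinal.{u}) ^ κ = 2 ^ κ := by
    rw [← power_mul, mul_eq_self hκ]
  have hθ0 : ℵ₀ ≤ (2 ^ κ : Cardinal.{u}) := hκ.trans (cantor κ).le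
  have hW : #(WType β) ≤ 2 ^ κ := by
    apply WType.cardinalMk_le_of_le
    calc (sum fun a : T ⊕ T => (2 ^ κ : Cardinal.{u}) ^ #(β a)) 
        ≤ sum fun _ : T ⊕ T => (2 ^ κ : Cardinal.{u}) := by
          apply sum_le_sum
          rintro (t | t)
          · simp only [β, Sum.elim_inl]
            rw [mk_eq_zero, power_zero]
            exact (one_lt_aleph0.le.trans hθ0)
          · simp only [β, Sum.elim_inr]
            rw [hK, hθκ]
      _ = #(T ⊕ T) * 2 ^ κ := by rw [sum_const']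
      _ ≤ 2 ^ κ := by
          simp only [mk_sum, lift_id]
          rw [hT, add_eq_self hθ0, mul_eq_self hθ0]
  refine ⟨Set.range F, mk_range_le.trans hW, ?_⟩
  intro r hr hrκ
  rcases r.eq_empty_or_nonempty with rfl | hne
  · intro x hx
    obtain ⟨t, ht⟩ := he ∅ hrκ hx
    exact ⟨WType.mk (Sum.inl t) (fun a => a.elim), ht⟩
  · intro x hx
    obtain ⟨t, ht⟩ := he r hrκ hx
    -- enumerate `r` by `K`
    obtain ⟨g, hg⟩ : ∃ g : K → A, Set.range g = r := by
      have : Nonempty r := hne.to_subtype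
      obtain ⟨g, hg⟩ : ∃ g : K → r, Function.Surjective g := by
        have h2 : #r ≤ #K := by rw [hK]; exact hrκ
        obtain ⟨f⟩ := h2
        exact ⟨Function.invFun f, Function.invFun_surjective f.injective⟩
      refine ⟨fun k => (g k : A), ?_⟩
      ext y
      constructor
      · rintro ⟨k, rfl⟩
        exact (g k).2
      · intro hy
        obtain ⟨k, hk⟩ := hg ⟨y, hy⟩
        exact ⟨k, by simp [hk]⟩
    have hk : ∀ k, ∃ w : WType β, F w = g k := by
      intro k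
      have : g k ∈ r := hg ▸ ⟨k, rfl⟩
      exact hr this
    choose w hw using hk
    refine ⟨WType.mk (Sum.inr t) (fun k : K => w k), ?_⟩
    have : F (WType.mk (Sum.inr t) (fun k : K => w k)) = e (Set.range fun k => F (w k)) t := rfl
    rw [this]
    have h3 : (fun k => F (w k)) = g := funext hw
    rw [h3, hg, ht]

/-- A delta-system style lemma. -/
theorem delta_root {A I : Type u} (κ : Cardinal.{u}) (hκ : ℵ₀ ≤ κ) (c : I → Set A)
    (hc : ∀ i, #(c i) < κ) (hI : 2 ^ κ < #I) :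
    ∃ r : Set A, #r < κ ∧ ∀ (v : Set A) (J : Set I), #v ≤ 2 ^ κ → #J ≤ 2 ^ κ →
      ∃ i, i ∉ J ∧ c i ∩ v ⊆ r ∧ r ⊆ c i := by
  classical
  have hθ0 : ℵ₀ ≤ (2 ^ κ : Cardinal.{u}) := hκ.trans (cantor κ).le
  have hJ : ∀ J : Set I, #J ≤ 2 ^ κ → ∃ i, i ∉ J := by
    intro J hJ
    by_contra hcon
    push Not at hcon
    have : J = Set.univ := Set.eq_univ_of_forall hcon
    rw [this, mk_univ] at hJ
    exact absurd hI (not_lt.mpr hJ)
  rcases isEmpty_or_nonempty A with hA | hA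
  · refine ⟨∅, ?_, ?_⟩
    · rw [mk_eq_zero]
      exact aleph0_pos.trans_le hκ
    · intro v J _ hJ'
      obtain ⟨i, hi⟩ := hJ J hJ'
      exact ⟨i, hi, fun x => (hA.false x).elim, fun x => (hA.false x).elim⟩
  by_contra hcon
  push Not at hcon
  have h1 : ∀ r : Set A, ∃ (v : Set A) (J : Set I), #v ≤ 2 ^ κ ∧ #J ≤ 2 ^ κ ∧ 
      (#r < κ → ∀ i, i ∉ J → c i ∩ v ⊆ r → ¬ r ⊆ c i) := by
    intro r
    by_cases h : #r < κ
    · obtain ⟨v, J, h1, h2, h3⟩ := hcon r h
      exact ⟨v, J, h1, h2, fun _ => h3⟩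
    · exact ⟨∅, ∅, by simp, by simp, fun h' => absurd h' h⟩
  choose v J hv hJc hbad using h1
  obtain ⟨W, hW, hcl⟩ := exists_closed κ hκ v (fun r _ => hv r)
  -- the union of the `J r`, `r ⊆ W`, `#r ≤ κ`
  let S : Set (Set A) := {r | r ⊆ W ∧ #r ≤ κ}
  have hS : #S ≤ 2 ^ κ := by
    have h := mk_bounded_subset_le W κ
    refine h.trans ?_
    calc (max #W ℵ₀) ^ κ ≤ (2 ^ κ) ^ κ := power_le_power_right (max_le hW hθ0)
      _ = 2 ^ κ := by rw [← power_mul, mul_eq_self hκ]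
  let Z : Set I := ⋃ r : S, J r
  have hZ : #Z ≤ 2 ^ κ := by
    calc #Z ≤ #S * ⨆ r : S, #(J r) := mk_iUnion_le _
      _ ≤ 2 ^ κ * 2 ^ κ := by
        gcongr
        exact ciSup_le' (fun r => hJc r)
      _ = 2 ^ κ := mul_eq_self hθ0
  obtain ⟨i, hi⟩ := hJ Z hZ
  have hr : #(c i ∩ W : Set A) < κ := (mk_le_mk_of_subset Set.inter_subset_left).trans_lt (hc i)
  have hrS : (c i ∩ W) ∈ S := ⟨Set.inter_subset_right, hr.le⟩
  have hiJ : i ∉ J (c i ∩ W) := fun h => hi (Set.mem_iUnion.mpr ⟨⟨_, hrS⟩, h⟩)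
  have hvW : v (c i ∩ W) ⊆ W := hcl _ Set.inter_subset_right hr.le
  exact hbad _ hr i hiJ (Set.inter_subset_inter_right _ hvW) Set.inter_subset_left

end Pool.Agent.Helper24
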