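import Mathlib
import Pool.Agent.Helper24.Delta

/-!
The forcing conditions.
`L` is the vertex set (linearly ordered), `B` the set of blocks, `blk : L → B`, `R` the set of
rank values.
-/

set_option autoImplicit false
set_option linter.unusedSectionVars false

universe u

open Cardinal Set

namespace Pool.Agent.Helper24

/-- Facts out of which conditions are made. -/
inductive Datum (L B R : Type u) : Type u
  | vert (x : L)
  | edge (x y : L) (b : Bool)
  | rank (y : L) (s : Finset L) (r : R)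
  | prom (s : Finset L) (h : B → R)

open Datum

variable {L B R : Type u} [LinearOrder L] [LinearOrder B] [LinearOrder R]

/-- adjacency (in either direction) according to a set of facts -/
def SAdj (S : Set (Datum L B R)) (x y : L) : Prop :=
  edge x y true ∈ S ∨ edge y x true ∈ S

theorem SAdj.symm {S : Set (Datum L B R)} {x y : L} (h : SAdj S x y) : SAdj S y x := Or.symm h

theorem SAdj.mono {S T : Set (Datum L B R)} (hST : S ⊆ T) {x y : L} (h : SAdj S x y) :
    SAdj T x y := h.imp (fun h => hST h) (fun h => hST h)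

/-- `s` is a clique all of whose elements are joined to `y` from below -/
def CB (S : Set (Datum L B R)) (y : L) (s : Finset L) : Prop :=
  (∀ x ∈ s, edge x y true ∈ S) ∧ ∀ x ∈ s, ∀ z ∈ s, x ≠ z → SAdj S x z

theorem CB.mono {S T : Set (Datum L B R)} (hST : S ⊆ T) {y : L} {s : Finset L} (h : CB S y s) :
    CB T y s := ⟨fun x hx => hST (h.1 x hx), fun x hx z hz hxz => (h.2 x hx z hz hxz).mono hST⟩

theorem CB.subset {S : Set (Datum L B R)} {y : L} {s t : Finset L} (h : CB S y s) (hts : t ⊆ s) :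
    CB S y t := ⟨fun x hx => h.1 x (hts hx), fun x hx z hz => h.2 x (hts hx) z (hts hz)⟩

theorem CB.empty (S : Set (Datum L B R)) (y : L) : CB S y ∅ := ⟨by simp, by simp⟩

/-- the axioms for conditions -/
structure IsCond (κ : Cardinal.{u}) (blk : L → B) (S : Set (Datum L B R)) : Prop where
  small : #S < κ
  edge_vert : ∀ {x y b}, edge x y b ∈ S → vert x ∈ S ∧ vert y ∈ S ∧ blk x < blk y
  edge_total : ∀ {x y}, vert x ∈ S → vert y ∈ S → blk x < blk y →
    edge x y true ∈ S ∨ edge x y false ∈ S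
  edge_func : ∀ {x y}, edge x y true ∈ S → edge x y false ∈ S → False
  rank_dom : ∀ {y s r}, rank y s r ∈ S → vert y ∈ S ∧ CB S y s
  rank_total : ∀ {y s}, vert y ∈ S → CB S y s → ∃ r, rank y s r ∈ S
  rank_func : ∀ {y s r r'}, rank y s r ∈ S → rank y s r' ∈ S → r = r'
  rank_anti : ∀ {y s r s' r'}, rank y s r ∈ S → rank y s' r' ∈ S → s ⊂ s' → r' < r
  prom_dom : ∀ {s h}, prom s h ∈ S → ∀ x ∈ s, vert x ∈ S
  prom_le : ∀ {s h y r}, prom s h ∈ S → rank y s r ∈ S → h (blk y) ≤ r

theorem IsCond.cb_vert {κ : Cardinal.{u}} {blk : L → B} {S : Set (Datum L B R)}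
    (hS : IsCond κ blk S) {y : L} {s : Finset L} (h : CB S y s) {x : L} (hx : x ∈ s) :
    vert x ∈ S := (hS.edge_vert (h.1 x hx)).1

theorem IsCond.cb_blk {κ : Cardinal.{u}} {blk : L → B} {S : Set (Datum L B R)}
    (hS : IsCond κ blk S) {y : L} {s : Finset L} (h : CB S y s) {x : L} (hx : x ∈ s) :
    blk x < blk y := (hS.edge_vert (h.1 x hx)).2.2

/-- weak monotonicity of ranks -/
theorem IsCond.rank_le {κ : Cardinal.{u}} {blk : L → B} {S : Set (Datum L B R)}
    (hS : IsCond κ blk S) {y : L} {s s' : Finset L} {r r' : R} (h : rank y s r ∈ S)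
    (h' : rank y s' r' ∈ S) (hs : s ⊆ s') : r' ≤ r := by
  rcases hs.eq_or_ssubset with rfl | hs
  · exact (hS.rank_func h h').ge
  · exact (hS.rank_anti h h' hs).le

/-- A vertex never has an infinite clique among its lower neighbours. -/
theorem IsCond.no_infinite [WellFoundedLT R] {κ : Cardinal.{u}} {blk : L → B}
    {S : Set (Datum L B R)} (hS : IsCond κ blk S) {y : L} (hy : vert y ∈ S) (z : ℕ → L)
    (hz : Function.Injective z)
    (h1 : ∀ n, edge (z n) y true ∈ S) (h2 : ∀ m n, m ≠ n → SAdj S (z m) (z n)) : False := by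
  classical
  let s : ℕ → Finset L := fun n => (Finset.range n).image z
  have hs : ∀ n, CB S y (s n) := by
    intro n
    refine ⟨?_, ?_⟩
    · intro x hx
      obtain ⟨k, -, rfl⟩ := Finset.mem_image.mp hx
      exact h1 k
    · intro x hx x' hx' hne
      obtain ⟨k, -, rfl⟩ := Finset.mem_image.mp hx
      obtain ⟨k', -, rfl⟩ := Finset.mem_image.mp hx'
      exact h2 _ _ (fun h => hne (by rw [h]))
  have hr : ∀ n, ∃ r, rank y (s n) r ∈ S := fun n => hS.rank_total hy (hs n)
  choose r hr using hr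
  have hss : ∀ n, s n ⊂ s (n+1) := by
    intro n
    rw [Finset.ssubset_iff_of_subset (Finset.image_subset_image (by simp))]
    refine ⟨z n, Finset.mem_image_of_mem _ (by simp), ?_⟩
    intro h
    obtain ⟨k, hk, hkn⟩ := Finset.mem_image.mp h
    have := hz hkn
    simp at hk
    omega
  have hdec : ∀ n, r (n+1) < r n := fun n => hS.rank_anti (hr n) (hr (n+1)) (hss n)
  have hanti : StrictAnti r := strictAnti_nat_of_succ_lt hdec
  exact not_strictAnti_of_wellFoundedLT r hanti

/-- Unions of directed families of size `< κ` of conditions are conditions. -/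
theorem isCond_sUnion {κ : Cardinal.{u}} (hκ : κ.IsRegular) {blk : L → B}
    (C : Set (Set (Datum L B R))) (hC : ∀ S ∈ C, IsCond κ blk S) (hsmall : #C < κ)
    (hdir : ∀ S ∈ C, ∀ T ∈ C, S ⊆ T ∨ T ⊆ S) : IsCond κ blk (⋃₀ C) := by
  classical
  -- any finite set of facts of the union lies in a single member
  have key : ∀ F : Finset (Datum L B R), (C.Nonempty) → (∀ f ∈ F, f ∈ ⋃₀ C) →
      ∃ S ∈ C, ∀ f ∈ F, f ∈ S := by
    intro F hne
    induction F using Finset.induction_on with
    | empty => intro _; obtain ⟨S, hS⟩ := hne; exact ⟨S, hS, by simp⟩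
    | insert a F _ ih =>
      intro h
      obtain ⟨S, hS, hSF⟩ := ih (fun f hf => h f (Finset.mem_insert_of_mem hf))
      obtain ⟨T, hT, haT⟩ := h a (Finset.mem_insert_self _ _)
      rcases hdir S hS T hT with hst | hts
      · exact ⟨T, hT, fun f hf => by
          rcases Finset.mem_insert.mp hf with rfl | hf
          · exact haT
          · exact hst (hSF f hf)⟩
      · exact ⟨S, hS, fun f hf => by
          rcases Finset.mem_insert.mp hf with rfl | hf
          · exact hts haT
          · exact hSF f hf⟩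
  have key2 : ∀ f g : Datum L B R, f ∈ ⋃₀ C → g ∈ ⋃₀ C → ∃ S ∈ C, f ∈ S ∧ g ∈ S := by
    intro f g hf hg
    obtain ⟨S, hS, h⟩ := key {f, g} (by obtain ⟨S, hS, _⟩ := hf; exact ⟨S, hS⟩)
      (by simp only [Finset.mem_insert, Finset.mem_singleton]; rintro _ (rfl | rfl) <;> assumption)
    exact ⟨S, hS, h f (by simp), h g (by simp)⟩
  -- cliques of the union lie in a single member containing a given fact
  have keyCB : ∀ (f : Datum L B R) (y : L) (s : Finset L), f ∈ ⋃₀ C → CB (⋃₀ C) y s →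
      ∃ S ∈ C, f ∈ S ∧ CB S y s := by
    intro f y s hf hs
    have hadj : ∀ x z : L, ∃ e : Datum L B R, SAdj (⋃₀ C) x z → e ∈ ⋃₀ C ∧ 
        (∀ S : Set (Datum L B R), e ∈ S → SAdj S x z) := by
      intro x z
      by_cases h : edge x z true ∈ ⋃₀ C
      · exact ⟨edge x z true, fun _ => ⟨h, fun S hS => Or.inl hS⟩⟩
      · exact ⟨edge z x true, fun h' => ⟨h'.resolve_left h, fun S hS => Or.inr hS⟩⟩
    choose e he using hadj
    obtain ⟨S, hS, h⟩ := key
      (insert f ((s.image fun x => edge x y true) ∪ 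
        ((s ×ˢ s).filter (fun p => p.1 ≠ p.2)).image fun p => e p.1 p.2))
      (by obtain ⟨S, hS, _⟩ := hf; exact ⟨S, hS⟩)
      (by
        intro g hg
        simp only [Finset.mem_insert, Finset.mem_union, Finset.mem_image, Finset.mem_filter,
          Finset.mem_product] at hg
        rcases hg with rfl | ⟨x, hx, rfl⟩ | ⟨⟨x, z⟩, ⟨⟨hx, hz⟩, hne⟩, rfl⟩
        · exact hf
        · exact hs.1 x hx
        · exact (he x z (hs.2 x hx z hz hne)).1)
    refine ⟨S, hS, h f (by simp), ?_, ?_⟩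
    · intro x hx
      apply h
      simp only [Finset.mem_insert, Finset.mem_union, Finset.mem_image]
      exact Or.inr (Or.inl ⟨x, hx, rfl⟩)
    · intro x hx z hz hne
      refine (he x z (hs.2 x hx z hz hne)).2 S (h _ ?_)
      simp only [Finset.mem_insert, Finset.mem_union, Finset.mem_image, Finset.mem_filter,
          Finset.mem_product]
      exact Or.inr (Or.inr ⟨(x, z), ⟨⟨hx, hz⟩, hne⟩, rfl⟩)
  refine ⟨?_, ?_, ?_, ?_, ?_, ?_, ?_, ?_, ?_, ?_⟩
  · rw [sUnion_eq_iUnion]
    exact (card_iUnion_lt_iff_forall_of_isRegular hκ hsmall).mpr (fun S => (hC _ S.2).small)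
  · intro x y b h
    obtain ⟨S, hS, h⟩ := h
    obtain ⟨h1, h2, h3⟩ := (hC S hS).edge_vert h
    exact ⟨⟨S, hS, h1⟩, ⟨S, hS, h2⟩, h3⟩
  · intro x y hx hy hb
    obtain ⟨S, hS, h1, h2⟩ := key2 _ _ hx hy
    exact ((hC S hS).edge_total h1 h2 hb).imp (fun h => ⟨S, hS, h⟩) (fun h => ⟨S, hS, h⟩)
  · intro x y h1 h2
    obtain ⟨S, hS, h1, h2⟩ := key2 _ _ h1 h2
    exact (hC S hS).edge_func h1 h2
  · intro y s r h
    obtain ⟨S, hS, h⟩ := h
    obtain ⟨h1, h2⟩ := (hC S hS).rank_dom h
    exact ⟨⟨S, hS, h1⟩, h2.mono (subset_sUnion_of_mem hS)⟩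
  · intro y s hy hs
    obtain ⟨S, hS, h1, h2⟩ := keyCB _ y s hy hs
    obtain ⟨r, hr⟩ := (hC S hS).rank_total h1 h2
    exact ⟨r, S, hS, hr⟩
  · intro y s r r' h h'
    obtain ⟨S, hS, h1, h2⟩ := key2 _ _ h h'
    exact (hC S hS).rank_func h1 h2
  · intro y s r s' r' h h' hs
    obtain ⟨S, hS, h1, h2⟩ := key2 _ _ h h'
    exact (hC S hS).rank_anti h1 h2 hs
  · intro s h hp x hx
    obtain ⟨S, hS, hp⟩ := hp
    exact ⟨S, hS, (hC S hS).prom_dom hp x hx⟩
  · intro s h y r hp hr
    obtain ⟨S, hS, h1, h2⟩ := key2 _ _ hp hr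
    exact (hC S hS).prom_le h1 h2

end Pool.Agent.Helper24
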