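import Mathlib
import Pool.Agent.Helper24.Cond

set_option autoImplicit false
set_option linter.unusedSectionVars false

universe u

open Cardinal Set

namespace Pool.Agent.Helper24

open Datum

variable {L B R : Type u} [LinearOrder L] [LinearOrder B] [LinearOrder R]

/-- one vertex old on the left only, the other old on the right only -/
def Mixed (S T : Set (Datum L B R)) (x y : L) : Prop :=
  (vert x ∈ S ∧ vert x ∉ T ∧ vert y ∈ T ∧ vert y ∉ S) ∨
  (vert x ∈ T ∧ vert x ∉ S ∧ vert y ∈ S ∧ vert y ∉ T)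

/-- The amalgam of `S` and `T`; if `N` holds the new edge `ζ ζ'` is added. -/
def amalg (blk : L → B) (S T : Set (Datum L B R)) (N : Prop) (ζ ζ' : L) (f : R → R) :
    Set (Datum L B R) :=
  {d | d ∈ S ∨ d ∈ T ∨
    (∃ x y, d = edge x y false ∧ Mixed S T x y ∧ blk x < blk y ∧ ¬ (N ∧ x = ζ ∧ y = ζ')) ∨
    (N ∧ d = edge ζ ζ' true) ∨
    (N ∧ ∃ s r, d = rank ζ' (insert ζ s) (f r) ∧ rank ζ' s r ∈ T ∧
      ∀ x ∈ s, vert x ∈ S ∧ SAdj S x ζ)}

variable {blk : L → B} {S T : Set (Datum L B R)} {N : Prop} {ζ ζ' : L} {f : R → R}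

theorem left_sub : S ⊆ amalg blk S T N ζ ζ' f := fun _ h => Or.inl h
theorem right_sub : T ⊆ amalg blk S T N ζ ζ' f := fun _ h => Or.inr (Or.inl h)

theorem vert_mem {x : L} : vert x ∈ amalg blk S T N ζ ζ' f ↔ vert x ∈ S ∨ vert x ∈ T := by
  simp [amalg]

theorem prom_mem {s : Finset L} {h : B → R} :
    prom s h ∈ amalg blk S T N ζ ζ' f ↔ prom s h ∈ S ∨ prom s h ∈ T := by
  simp [amalg]

theorem edge_true_mem {x y : L} :
    edge x y true ∈ amalg blk S T N ζ ζ' f ↔
      edge x y true ∈ S ∨ edge x y true ∈ T ∨ (N ∧ x = ζ ∧ y = ζ') := by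
  simp [amalg]

theorem edge_false_mem {x y : L} :
    edge x y false ∈ amalg blk S T N ζ ζ' f ↔
      edge x y false ∈ S ∨ edge x y false ∈ T ∨
        (Mixed S T x y ∧ blk x < blk y ∧ ¬ (N ∧ x = ζ ∧ y = ζ')) := by
  simp [amalg]

theorem rank_mem {y : L} {s : Finset L} {r : R} :
    rank y s r ∈ amalg blk S T N ζ ζ' f ↔
      rank y s r ∈ S ∨ rank y s r ∈ T ∨
        (N ∧ ∃ s' r', y = ζ' ∧ s = insert ζ s' ∧ r = f r' ∧ rank ζ' s' r' ∈ T ∧
          ∀ x ∈ s', vert x ∈ S ∧ SAdj S x ζ) := by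
  simp only [amalg, mem_ofPred_eq, reduceCtorEq, false_and, exists_false, and_false, false_or,
    rank.injEq]
  constructor
  · rintro (h | h | ⟨hN, s', r', ⟨h1, h2, h3⟩, h4, h5⟩)
    · exact Or.inl h
    · exact Or.inr (Or.inl h)
    · exact Or.inr (Or.inr ⟨hN, s', r', h1, h2, h3, h4, h5⟩)
  · rintro (h | h | ⟨hN, s', r', h1, h2, h3, h4, h5⟩)
    · exact Or.inl h
    · exact Or.inr (Or.inl h)
    · exact Or.inr (Or.inr ⟨hN, s', r', ⟨h1, h2, h3⟩, h4, h5⟩)

/-- smallness of the amalgam -/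
theorem amalg_small {κ : Cardinal.{u}} (hκ : ℵ₀ ≤ κ) (hS : #S < κ) (hT : #T < κ) :
    #(amalg blk S T N ζ ζ' f) < κ := by
  classical
  let U : Set (Datum L B R) := S ∪ T
  have hU : #U < κ := (mk_union_le S T).trans_lt (add_lt_of_lt hκ hS hT)
  let g : U × U → Datum L B R := fun p => match p.1.1, p.2.1 with
    | vert x, vert y => edge x y false
    | d, _ => d
  let g' : T → Datum L B R := fun d => match d.1 with
    | rank y s r => rank y (insert ζ s) (f r)
    | d => d
  have hg : #(Set.range g) < κ := mk_range_le.trans_lt (by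
    rw [← mul_def]; exact mul_lt_of_lt hκ hU hU)
  have hg' : #(Set.range g') < κ := mk_range_le.trans_lt hT
  have hsub : amalg blk S T N ζ ζ' f ⊆ U ∪ (Set.range g ∪ ({edge ζ ζ' true} ∪ Set.range g')) := by
    rintro d (h | h | ⟨x, y, rfl, h, -, -⟩ | ⟨-, rfl⟩ | ⟨-, s, r, rfl, h, -⟩)
    · exact Or.inl (Or.inl h)
    · exact Or.inl (Or.inr h)
    · right; left
      rcases h with ⟨h1, _, h2, _⟩ | ⟨h1, _, h2, _⟩
      · exact ⟨(⟨vert x, Or.inl h1⟩, ⟨vert y, Or.inr h2⟩), rfl⟩
      · exact ⟨(⟨vert x, Or.inr h1⟩, ⟨vert y, Or.inl h2⟩), rfl⟩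
    · right; right; left; rfl
    · right; right; right
      exact ⟨⟨_, h⟩, rfl⟩
  refine (mk_le_mk_of_subset hsub).trans_lt ?_
  refine (mk_union_le _ _).trans_lt (add_lt_of_lt hκ hU ?_)
  refine (mk_union_le _ _).trans_lt (add_lt_of_lt hκ hg ?_)
  refine (mk_union_le _ _).trans_lt (add_lt_of_lt hκ ?_ hg')
  rw [mk_singleton]
  exact one_lt_aleph0.trans_le hκ

/-- The amalgamation lemma. -/
theorem amalg_isCond {κ : Cardinal.{u}} (hκ : ℵ₀ ≤ κ)
    (hS : IsCond κ blk S) (hT : IsCond κ blk T)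
    (hedge : ∀ x y b, vert x ∈ S → vert x ∈ T → vert y ∈ S → vert y ∈ T →
      (edge x y b ∈ S ↔ edge x y b ∈ T))
    (hrank : ∀ y s r, vert y ∈ S → vert y ∈ T → (∀ x ∈ s, vert x ∈ S ∧ vert x ∈ T) →
      (rank y s r ∈ S ↔ rank y s r ∈ T))
    (hST : ∀ s h y r, prom s h ∈ S → rank y s r ∈ T → h (blk y) ≤ r)
    (hTS : ∀ s h y r, prom s h ∈ T → rank y s r ∈ S → h (blk y) ≤ r)
    (hζ : N → vert ζ ∈ S) (hζT : N → vert ζ ∉ T) (hζ' : N → vert ζ' ∈ T)
    (hζ'S : N → vert ζ' ∉ S) (hblk : N → ∀ x, vert x ∈ S → blk x < blk ζ')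
    (hf : N → ∀ s r, rank ζ' s r ∈ T → (∀ x ∈ s, vert x ∈ S ∧ SAdj S x ζ) →
      f r < r ∧ ∀ s' h, prom s' h ∈ S → h (blk ζ') ≤ f r)
    (hf2 : N → ∀ s r s' r', rank ζ' s r ∈ T → (∀ x ∈ s, vert x ∈ S ∧ SAdj S x ζ) →
      rank ζ' s' r' ∈ T → (∀ x ∈ s', vert x ∈ S ∧ SAdj S x ζ) → r' < r → f r' < f r) :
    IsCond κ blk (amalg blk S T N ζ ζ' f) := by
  classical
  -- adjacency in the amalgam between two vertices of `S`, resp. `T`
  have edgeS : ∀ x y, vert x ∈ S → vert y ∈ S →
      edge x y true ∈ amalg blk S T N ζ ζ' f → edge x y true ∈ S := by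
    intro x y hx hy h
    rcases edge_true_mem.mp h with h | h | ⟨hN, -, rfl⟩
    · exact h
    · obtain ⟨h1, h2, -⟩ := hT.edge_vert h
      exact (hedge x y true hx h1 hy h2).mpr h
    · exact absurd hy (hζ'S hN)
  have edgeT : ∀ x y, vert x ∈ T → vert y ∈ T →
      edge x y true ∈ amalg blk S T N ζ ζ' f → edge x y true ∈ T := by
    intro x y hx hy h
    rcases edge_true_mem.mp h with h | h | ⟨hN, rfl, -⟩
    · obtain ⟨h1, h2, -⟩ := hS.edge_vert h
      exact (hedge x y true h1 hx h2 hy).mp h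
    · exact h
    · exact absurd hx (hζT hN)
  have adjS : ∀ x y, vert x ∈ S → vert y ∈ S →
      SAdj (amalg blk S T N ζ ζ' f) x y → SAdj S x y := fun x y hx hy h =>
    h.imp (edgeS x y hx hy) (edgeS y x hy hx)
  have adjT : ∀ x y, vert x ∈ T → vert y ∈ T →
      SAdj (amalg blk S T N ζ ζ' f) x y → SAdj T x y := fun x y hx hy h =>
    h.imp (edgeT x y hx hy) (edgeT y x hy hx)
  have cbS : ∀ y t, vert y ∈ S → (∀ x ∈ t, vert x ∈ S) →
      CB (amalg blk S T N ζ ζ' f) y t → CB S y t := fun y t hy ht h =>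
    ⟨fun x hx => edgeS x y (ht x hx) hy (h.1 x hx),
      fun x hx z hz hne => adjS x z (ht x hx) (ht z hz) (h.2 x hx z hz hne)⟩
  have cbT : ∀ y t, vert y ∈ T → (∀ x ∈ t, vert x ∈ T) →
      CB (amalg blk S T N ζ ζ' f) y t → CB T y t := fun y t hy ht h =>
    ⟨fun x hx => edgeT x y (ht x hx) hy (h.1 x hx),
      fun x hx z hz hne => adjT x z (ht x hx) (ht z hz) (h.2 x hx z hz hne)⟩
  have hζζ' : N → ζ ≠ ζ' := fun hN h => hζT hN (h ▸ hζ' hN)
  have hlt : N → blk ζ < blk ζ' := fun hN => hblk hN ζ (hζ hN)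
  have newT : N → ∀ s r, rank ζ' s r ∈ T → ζ ∉ s := by
    intro hN s r h hmem
    exact hζT hN (hT.cb_vert (hT.rank_dom h).2 hmem)
  refine ⟨amalg_small hκ hS.small hT.small, ?_, ?_, ?_, ?_, ?_, ?_, ?_, ?_, ?_⟩
  · -- edge_vert
    rintro x y (_ | _) h
    · rcases edge_false_mem.mp h with h | h | ⟨hm, hb, -⟩
      · obtain ⟨h1, h2, h3⟩ := hS.edge_vert h
        exact ⟨vert_mem.mpr (Or.inl h1), vert_mem.mpr (Or.inl h2), h3⟩
      · obtain ⟨h1, h2, h3⟩ := hT.edge_vert h
        exact ⟨vert_mem.mpr (Or.inr h1), vert_mem.mpr (Or.inr h2), h3⟩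
      · rcases hm with ⟨h1, _, h2, _⟩ | ⟨h1, _, h2, _⟩
        · exact ⟨vert_mem.mpr (Or.inl h1), vert_mem.mpr (Or.inr h2), hb⟩
        · exact ⟨vert_mem.mpr (Or.inr h1), vert_mem.mpr (Or.inl h2), hb⟩
    · rcases edge_true_mem.mp h with h | h | ⟨hN, rfl, rfl⟩
      · obtain ⟨h1, h2, h3⟩ := hS.edge_vert h
        exact ⟨vert_mem.mpr (Or.inl h1), vert_mem.mpr (Or.inl h2), h3⟩
      · obtain ⟨h1, h2, h3⟩ := hT.edge_vert h
        exact ⟨vert_mem.mpr (Or.inr h1), vert_mem.mpr (Or.inr h2), h3⟩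
      · exact ⟨vert_mem.mpr (Or.inl (hζ hN)), vert_mem.mpr (Or.inr (hζ' hN)), hlt hN⟩
  · -- edge_total
    intro x y hx hy hb
    by_cases hxyS : vert x ∈ S ∧ vert y ∈ S
    · exact (hS.edge_total hxyS.1 hxyS.2 hb).imp (fun h => left_sub h) (fun h => left_sub h)
    by_cases hxyT : vert x ∈ T ∧ vert y ∈ T
    · exact (hT.edge_total hxyT.1 hxyT.2 hb).imp (fun h => right_sub h) (fun h => right_sub h)
    by_cases hN : N ∧ x = ζ ∧ y = ζ'
    · exact Or.inl (edge_true_mem.mpr (Or.inr (Or.inr hN)))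
    · right
      refine edge_false_mem.mpr (Or.inr (Or.inr ⟨?_, hb, hN⟩))
      rcases vert_mem.mp hx with hxS | hxT
      · rcases vert_mem.mp hy with hyS | hyT
        · exact absurd ⟨hxS, hyS⟩ hxyS
        · exact Or.inl ⟨hxS, fun h => hxyT ⟨h, hyT⟩, hyT, fun h => hxyS ⟨hxS, h⟩⟩
      · rcases vert_mem.mp hy with hyS | hyT
        · exact Or.inr ⟨hxT, fun h => hxyS ⟨h, hyS⟩, hyS, fun h => hxyT ⟨hxT, h⟩⟩
        · exact absurd ⟨hxT, hyT⟩ hxyT
  · -- edge_func
    intro x y h1 h2
    rcases edge_true_mem.mp h1 with h1 | h1 | ⟨hN, rfl, rfl⟩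
    · obtain ⟨hx, hy, -⟩ := hS.edge_vert h1
      rcases edge_false_mem.mp h2 with h2 | h2 | ⟨hm, -, -⟩
      · exact hS.edge_func h1 h2
      · obtain ⟨hx', hy', -⟩ := hT.edge_vert h2
        exact hS.edge_func h1 ((hedge x y false hx hx' hy hy').mpr h2)
      · rcases hm with ⟨_, _, _, h⟩ | ⟨_, h, _, _⟩
        · exact h hy
        · exact h hx
    · obtain ⟨hx, hy, -⟩ := hT.edge_vert h1
      rcases edge_false_mem.mp h2 with h2 | h2 | ⟨hm, -, -⟩
      · obtain ⟨hx', hy', -⟩ := hS.edge_vert h2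
        exact hT.edge_func h1 ((hedge x y false hx' hx hy' hy).mp h2)
      · exact hT.edge_func h1 h2
      · rcases hm with ⟨_, h, _, _⟩ | ⟨_, _, _, h⟩
        · exact h hx
        · exact h hy
    · rcases edge_false_mem.mp h2 with h2 | h2 | ⟨-, -, h⟩
      · exact hζ'S hN (hS.edge_vert h2).2.1
      · exact hζT hN (hT.edge_vert h2).1
      · exact h ⟨hN, rfl, rfl⟩
  · -- rank_dom
    intro y s r h0
    rcases rank_mem.mp h0 with h | h | ⟨hN, s', r', rfl, rfl, rfl, h, hs'⟩
    · obtain ⟨h1, h2⟩ := hS.rank_dom h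
      exact ⟨left_sub h1, h2.mono left_sub⟩
    · obtain ⟨h1, h2⟩ := hT.rank_dom h
      exact ⟨right_sub h1, h2.mono right_sub⟩
    · obtain ⟨h1, h2⟩ := hT.rank_dom h
      refine ⟨right_sub h1, ?_, ?_⟩
      · intro x hx
        rcases Finset.mem_insert.mp hx with rfl | hx
        · exact edge_true_mem.mpr (Or.inr (Or.inr ⟨hN, rfl, rfl⟩))
        · exact right_sub (h2.1 x hx)
      · intro x hx z hz hne
        rcases Finset.mem_insert.mp hx with rfl | hx
        · rcases Finset.mem_insert.mp hz with rfl | hz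
          · exact absurd rfl hne
          · exact ((hs' z hz).2.mono left_sub).symm
        · rcases Finset.mem_insert.mp hz with hz0 | hz
          · rw [hz0]; exact (hs' x hx).2.mono left_sub
          · exact (h2.2 x hx z hz hne).mono right_sub
  · -- rank_total
    intro y t hy ht
    by_cases hyS : vert y ∈ S
    · by_cases hyT : vert y ∈ T
      · -- common vertex
        by_cases htS : ∀ x ∈ t, vert x ∈ S
        · obtain ⟨r, hr⟩ := hS.rank_total hyS (cbS y t hyS htS ht)
          exact ⟨r, left_sub hr⟩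
        · push Not at htS
          obtain ⟨x', hx't, hx'S⟩ := htS
          have hx'T : vert x' ∈ T := by
            rcases edge_true_mem.mp (ht.1 x' hx't) with h | h | ⟨hN, -, rfl⟩
            · exact absurd (hS.edge_vert h).1 hx'S
            · exact (hT.edge_vert h).1
            · exact absurd hyS (hζ'S hN)
          have hx'ne : N → x' ≠ ζ' := by
            rintro hN rfl
            have h1 : blk x' < blk y := by
              rcases edge_true_mem.mp (ht.1 x' hx't) with h | h | ⟨hN, -, rfl⟩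
              · exact absurd (hS.edge_vert h).1 hx'S
              · exact (hT.edge_vert h).2.2
              · exact absurd hyS (hζ'S hN)
            exact absurd (hblk hN y hyS) (not_lt.mpr h1.le)
          have htT : ∀ z ∈ t, vert z ∈ T := by
            intro z hz
            by_cases hzx : z = x'
            · rw [hzx]; exact hx'T
            · rcases ht.2 z hz x' hx't hzx with h | h
              · rcases edge_true_mem.mp h with h | h | ⟨hN, -, h⟩
                · exact absurd (hS.edge_vert h).2.1 hx'S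
                · exact (hT.edge_vert h).1
                · exact absurd h (hx'ne hN)
              · rcases edge_true_mem.mp h with h | h | ⟨hN, h, -⟩
                · exact absurd (hS.edge_vert h).1 hx'S
                · exact (hT.edge_vert h).2.1
                · rw [h] at hx'S
                  exact absurd (hζ hN) hx'S
          obtain ⟨r, hr⟩ := hT.rank_total hyT (cbT y t hyT htT ht)
          exact ⟨r, right_sub hr⟩
      · have htS : ∀ x ∈ t, vert x ∈ S := by
          intro x hx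
          rcases edge_true_mem.mp (ht.1 x hx) with h | h | ⟨hN, -, rfl⟩
          · exact (hS.edge_vert h).1
          · exact absurd (hT.edge_vert h).2.1 hyT
          · exact absurd hyS (hζ'S hN)
        obtain ⟨r, hr⟩ := hS.rank_total hyS (cbS y t hyS htS ht)
        exact ⟨r, left_sub hr⟩
    · have hyT : vert y ∈ T := (vert_mem.mp hy).resolve_left hyS
      by_cases hnew : N ∧ y = ζ' ∧ ζ ∈ t
      · obtain ⟨hN, rfl, hζt⟩ := hnew
        have hin : ∀ x ∈ t.erase ζ, edge x y true ∈ T := by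
          intro x hx
          rcases edge_true_mem.mp (ht.1 x (Finset.mem_of_mem_erase hx)) with h | h | ⟨-, h, -⟩
          · exact absurd (hS.edge_vert h).2.1 hyS
          · exact h
          · exact absurd h (Finset.ne_of_mem_erase hx)
        have hVT : ∀ x ∈ t.erase ζ, vert x ∈ T := fun x hx => (hT.edge_vert (hin x hx)).1
        have hadj : ∀ x ∈ t.erase ζ, vert x ∈ S ∧ SAdj S x ζ := by
          intro x hx
          have hxy : x ≠ y := by
            rintro rfl
            exact lt_irrefl _ (hT.edge_vert (hin x hx)).2.2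
          rcases ht.2 x (Finset.mem_of_mem_erase hx) ζ hζt (Finset.ne_of_mem_erase hx) with h | h
          · rcases edge_true_mem.mp h with h | h | ⟨-, h, -⟩
            · exact ⟨(hS.edge_vert h).1, Or.inl h⟩
            · exact absurd (hT.edge_vert h).2.1 (hζT hN)
            · exact absurd h (Finset.ne_of_mem_erase hx)
          · rcases edge_true_mem.mp h with h | h | ⟨-, -, h⟩
            · exact ⟨(hS.edge_vert h).2.1, Or.inr h⟩
            · exact absurd (hT.edge_vert h).1 (hζT hN)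
            · exact absurd h hxy
        have hCB : CB T y (t.erase ζ) :=
          ⟨hin, fun x hx z hz hne => adjT x z (hVT x hx) (hVT z hz)
            (ht.2 x (Finset.mem_of_mem_erase hx) z (Finset.mem_of_mem_erase hz) hne)⟩
        obtain ⟨r, hr⟩ := hT.rank_total hyT hCB
        refine ⟨f r, rank_mem.mpr (Or.inr (Or.inr ⟨hN, t.erase ζ, r, rfl, ?_, rfl, hr, hadj⟩))⟩
        rw [Finset.insert_erase hζt]
      · have htT : ∀ x ∈ t, vert x ∈ T := by
          intro x hx
          rcases edge_true_mem.mp (ht.1 x hx) with h | h | ⟨hN, rfl, rfl⟩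
          · exact absurd (hS.edge_vert h).2.1 hyS
          · exact (hT.edge_vert h).1
          · exact absurd ⟨hN, rfl, hx⟩ hnew
        obtain ⟨r, hr⟩ := hT.rank_total hyT (cbT y t hyT htT ht)
        exact ⟨r, right_sub hr⟩
  · -- rank_func
    intro y s r r' h0 h0'
    rcases rank_mem.mp h0 with h | h | ⟨hN, s1, r1, rfl, rfl, rfl, h, hs1⟩
    · have hd := hS.rank_dom h
      rcases rank_mem.mp h0' with h' | h' | ⟨hN, s2, r2, rfl, rfl, rfl, h', hs2⟩
      · exact hS.rank_func h h'
      · have hd' := hT.rank_dom h'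
        have := (hrank y s r hd.1 hd'.1 (fun x hx => ⟨hS.cb_vert hd.2 hx, hT.cb_vert hd'.2 hx⟩)).mp h
        exact hT.rank_func this h'
      · exact absurd hd.1 (hζ'S hN)
    · have hd := hT.rank_dom h
      rcases rank_mem.mp h0' with h' | h' | ⟨hN, s2, r2, rfl, rfl, rfl, h', hs2⟩
      · have hd' := hS.rank_dom h'
        have := (hrank y s r' hd'.1 hd.1 (fun x hx => ⟨hS.cb_vert hd'.2 hx, hT.cb_vert hd.2 hx⟩)).mp h'
        exact hT.rank_func h this
      · exact hT.rank_func h h'
      · exact absurd (hT.cb_vert hd.2 (Finset.mem_insert_self _ _)) (hζT hN)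
    · rcases rank_mem.mp h0' with h' | h' | ⟨_, s2, r2, _, h2, rfl, h', hs2⟩
      · exact absurd (hS.rank_dom h').1 (hζ'S hN)
      · exact absurd (hT.cb_vert (hT.rank_dom h').2 (Finset.mem_insert_self _ _)) (hζT hN)
      · have h1 := newT hN _ _ h
        have h3 := newT hN _ _ h'
        have : s1 = s2 := by
          rw [← Finset.erase_insert h1, h2, Finset.erase_insert h3]
        subst this
        rw [hT.rank_func h h']
  · -- rank_anti
    intro y s r s' r' h0 h0' hss
    rcases rank_mem.mp h0 with h | h | ⟨hN, s1, r1, rfl, rfl, rfl, h, hs1⟩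
    · have hd := hS.rank_dom h
      rcases rank_mem.mp h0' with h' | h' | ⟨hN, s2, r2, rfl, rfl, rfl, h', hs2⟩
      · exact hS.rank_anti h h' hss
      · have hd' := hT.rank_dom h'
        have := (hrank y s r hd.1 hd'.1
          (fun x hx => ⟨hS.cb_vert hd.2 hx, hT.cb_vert hd'.2 (hss.1 hx)⟩)).mp h
        exact hT.rank_anti this h' hss
      · exact absurd hd.1 (hζ'S hN)
    · have hd := hT.rank_dom h
      rcases rank_mem.mp h0' with h' | h' | ⟨hN, s2, r2, rfl, rfl, rfl, h', hs2⟩
      · have hd' := hS.rank_dom h'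
        have := (hrank y s r hd'.1 hd.1
          (fun x hx => ⟨hS.cb_vert hd'.2 (hss.1 hx), hT.cb_vert hd.2 hx⟩)).mpr h
        exact hS.rank_anti this h' hss
      · exact hT.rank_anti h h' hss
      · have h1 := newT hN _ _ h
        have hs : s ⊆ s2 := by
          intro x hx
          rcases Finset.mem_insert.mp (hss.1 hx) with rfl | hx'
          · exact absurd hx h1
          · exact hx'
        exact ((hf hN s2 r2 h' hs2).1).trans_le (hT.rank_le h h' hs)
    · rcases rank_mem.mp h0' with h' | h' | ⟨_, s2, r2, _, rfl, rfl, h', hs2⟩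
      · exact absurd (hS.rank_dom h').1 (hζ'S hN)
      · exact absurd (hT.cb_vert (hT.rank_dom h').2 (hss.1 (Finset.mem_insert_self _ _))) (hζT hN)
      · have h1 := newT hN _ _ h
        have h3 := newT hN _ _ h'
        have hs : s1 ⊂ s2 := by
          have e1 : s1 = (insert ζ s1).erase ζ := (Finset.erase_insert h1).symm
          have e2 : s2 = (insert ζ s2).erase ζ := (Finset.erase_insert h3).symm
          rw [e1, e2]
          refine ⟨Finset.erase_subset_erase _ hss.1, ?_⟩
          intro hcon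
          apply hss.2
          intro x hx
          rcases Finset.mem_insert.mp hx with rfl | hx'
          · exact Finset.mem_insert_self _ _
          · rw [← e1, ← e2] at hcon
            exact Finset.mem_insert_of_mem (hcon hx')
        exact hf2 hN s1 r1 s2 r2 h hs1 h' hs2 (hT.rank_anti h h' hs)
  · -- prom_dom
    intro s h hp x hx
    rcases prom_mem.mp hp with hp | hp
    · exact left_sub (hS.prom_dom hp x hx)
    · exact right_sub (hT.prom_dom hp x hx)
  · -- prom_le
    intro s h y r hp0 hr0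
    rcases prom_mem.mp hp0 with hp | hp
    · rcases rank_mem.mp hr0 with hr | hr | ⟨hN, s2, r2, rfl, rfl, rfl, hr, hs2⟩
      · exact hS.prom_le hp hr
      · exact hST _ _ _ _ hp hr
      · exact (hf hN s2 r2 hr hs2).2 _ _ hp
    · rcases rank_mem.mp hr0 with hr | hr | ⟨hN, s2, r2, rfl, rfl, rfl, hr, hs2⟩
      · exact hTS _ _ _ _ hp hr
      · exact hT.prom_le hp hr
      · exact absurd (hT.prom_dom hp _ (Finset.mem_insert_self _ _)) (hζT hN)

end Pool.Agent.Helper24
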