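import Mathlib

/-!
Notions about forcing used in the statement.
-/

set_option autoImplicit false

universe u v w

open Cardinal

namespace Pool.Agent.Helper24

/-- `P` is `< κ`-closed: every chain of fewer than `κ` conditions has a lower bound. -/
def ChainClosed (P : Type u) [PartialOrder P] (κ : Cardinal.{u}) : Prop :=
  ∀ C : Set P, IsChain (· ≤ ·) C → #C < κ → ∃ q, ∀ p ∈ C, q ≤ p

/-- Every set of pairwise incompatible conditions has cardinality at most `θ`. -/
def AntichainsLE (P : Type u) [PartialOrder P] (θ : Cardinal.{u}) : Prop :=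
  ∀ A : Set P, (∀ p ∈ A, ∀ q ∈ A, p ≠ q → ¬ ∃ r, r ≤ p ∧ r ≤ q) → #A ≤ θ

/-- A `P`-name for a (partial) function from `X` to `Y`, given by the relation
`forces p x y`, read as `p ⊩ f(x) = y`. -/
structure FunName (P : Type u) [PartialOrder P] (X : Type v) (Y : Type w) where
  /-- `forces p x y` : the condition `p` forces `f(x) = y` -/
  forces : P → X → Y → Prop
  mono : ∀ {p q : P} {x : X} {y : Y}, q ≤ p → forces p x y → forces q x y
  func : ∀ {p : P} {x : X} {y y' : Y}, forces p x y → forces p x y' → y = y'

/-- A `P`-name for a graph on `V`. -/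
structure GraphName (P : Type u) [PartialOrder P] (V : Type v) where
  /-- `adj p x y` : the condition `p` puts an edge between `x` and `y` -/
  adj : P → V → V → Prop
  mono : ∀ {p q : P} {x y : V}, q ≤ p → adj p x y → adj q x y
  symm : ∀ {p : P} {x y : V}, adj p x y → adj p y x
  irrefl : ∀ (p : P) (x : V), ¬ adj p x x

variable {P : Type u} [PartialOrder P] {V : Type v} {X : Type w}

/-- `p` forces `x` and `y` to be adjacent: the conditions putting the edge are dense below `p`. -/
def GraphName.ForcesAdj (G : GraphName P V) (p : P) (x y : V) : Prop :=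
  ∀ q, q ≤ p → ∃ r, r ≤ q ∧ G.adj r x y

/-- `p` forces `x` and `y` to be non-adjacent: no condition below `p` puts the edge. -/
def GraphName.ForcesNonAdj (G : GraphName P V) (p : P) (x y : V) : Prop :=
  ∀ q, q ≤ p → ¬ G.adj q x y

/-- `p` forces the name `c` to be defined on all of `X`. -/
def ForcesTotal (p : P) (c : FunName P X V) : Prop :=
  ∀ q, q ≤ p → ∀ x, ∃ r, r ≤ q ∧ ∃ y, c.forces r x y

/-- `p` forces that `c` is a function defined on all of `X`, that it is injective and that its
range is a clique. -/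
def ForcesClique (G : GraphName P V) (p : P) (c : FunName P X V) : Prop :=
  ForcesTotal p c ∧ ∀ q, q ≤ p → ∀ i j, i ≠ j → ∀ x y, c.forces q i x → c.forces q j y →
    x ≠ y ∧ G.ForcesAdj q x y

/-- `p` forces that `c` is a function defined on all of `X`, that it is injective and that its
range is an independent set. -/
def ForcesIndependent (G : GraphName P V) (p : P) (c : FunName P X V) : Prop :=
  ForcesTotal p c ∧ ∀ q, q ≤ p → ∀ i j, i ≠ j → ∀ x y, c.forces q i x → c.forces q j y →
    x ≠ y ∧ G.ForcesNonAdj q x y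

/-- `p` forces that `c` is a function defined on all of `X`, that it is strictly increasing and
that its range is a clique. -/
def ForcesIncreasingClique [LT V] [LT X] (G : GraphName P V) (p : P) (c : FunName P X V) : Prop :=
  ForcesTotal p c ∧ ∀ q, q ≤ p → ∀ i j, i < j → ∀ x y, c.forces q i x → c.forces q j y →
    x < y ∧ G.ForcesAdj q x y

/-- In a `< κ`-closed notion of forcing, `κ` uncountable, countably many open sets that are
dense below `p` have an intersection that is dense below `p`. -/
theorem ChainClosed.dense_inter {κ : Cardinal.{u}} (h : ChainClosed P κ) (hκ : ℵ₀ < κ)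
    (R : ℕ → P → Prop) (hmono : ∀ n p q, q ≤ p → R n p → R n q) (p : P)
    (hdense : ∀ n q, q ≤ p → ∃ q', q' ≤ q ∧ R n q') : ∃ q, q ≤ p ∧ ∀ n, R n q := by
  classical
  have hdense' : ∀ n (q : {q // q ≤ p}), ∃ q' : {q // q ≤ p}, q'.1 ≤ q.1 ∧ R n q'.1 := by
    intro n q
    obtain ⟨q', h1, h2⟩ := hdense n q.1 q.2
    exact ⟨⟨q', h1.trans q.2⟩, h1, h2⟩
  choose f hf hR using hdense'
  let s : ℕ → {q // q ≤ p} := fun n => Nat.rec ⟨p, le_rfl⟩ (fun k q => f k q) n
  have hs : ∀ n, s (n+1) = f n (s n) := fun n => rfl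
  have hanti : Antitone (fun n => (s n).1) :=
    antitone_nat_of_succ_le (fun n => by rw [hs]; exact hf n (s n))
  obtain ⟨q, hq⟩ := h (Set.range (fun n => (s n).1)) (by
    rintro _ ⟨m, rfl⟩ _ ⟨n, rfl⟩ _
    rcases le_total m n with hmn | hmn
    · exact Or.inr (hanti hmn)
    · exact Or.inl (hanti hmn)) (by
    have : (Set.range (fun n => (s n).1)).Countable := Set.countable_range _
    exact (Cardinal.le_aleph0_iff_set_countable.mpr this).trans_lt hκ)
  refine ⟨q, (hq (s 0).1 ⟨0, rfl⟩).trans (s 0).2, fun n => ?_⟩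
  refine hmono n (s (n+1)).1 q (hq _ ⟨n+1, rfl⟩) ?_
  rw [hs]
  exact hR n (s n)

end Pool.Agent.Helper24
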