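import Mathlib
import Pool.Agent.Helper24.Amalg
import Pool.Agent.Helper24.Names

set_option autoImplicit false
set_option linter.unusedSectionVars false

universe u v w

open Cardinal Set

namespace Pool.Agent.Helper24

open Datum

/-- The conditions. -/
def Cnd {L B : Type u} (R : Type u) [LinearOrder L] [LinearOrder B] [LinearOrder R]
    (κ : Cardinal.{u}) (blk : L → B) : Type u :=
  {S : Set (Datum L B R) // IsCond κ blk S}

variable {L B R : Type u} [LinearOrder L] [LinearOrder B] [LinearOrder R]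
  {κ : Cardinal.{u}} {blk : L → B}

instance : PartialOrder (Cnd R κ blk) where
  le p q := q.1 ⊆ p.1
  le_refl p := Subset.refl _
  le_trans p q r hpq hqr := Subset.trans hqr hpq
  le_antisymm p q hpq hqp := Subtype.ext (Subset.antisymm hqp hpq)

theorem Cnd.le_def {p q : Cnd R κ blk} : p ≤ q ↔ q.1 ⊆ p.1 := Iff.rfl

theorem isCond_empty (hκ : ℵ₀ ≤ κ) : IsCond κ blk (∅ : Set (Datum L B R)) := by
  refine ⟨?_, ?_, ?_, ?_, ?_, ?_, ?_, ?_, ?_, ?_⟩ <;> simp
  exact aleph0_pos.trans_le hκ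

theorem cnd_chainClosed (hκ : κ.IsRegular) : ChainClosed (Cnd R κ blk) κ := by
  intro C hC hsmall
  refine ⟨⟨⋃₀ (Subtype.val '' C), ?_⟩, ?_⟩
  · apply isCond_sUnion hκ
    · rintro _ ⟨p, -, rfl⟩
      exact p.2
    · exact mk_image_le.trans_lt hsmall
    · rintro _ ⟨p, hp, rfl⟩ _ ⟨q, hq, rfl⟩
      by_cases hpq : p = q
      · left; rw [hpq]
      · rcases hC hp hq hpq with h | h
        · right; exact h
        · left; exact h
  · intro p hp
    exact subset_sUnion_of_mem ⟨p, hp, rfl⟩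

/-- The name of the generic graph. -/
def gname (R : Type u) [LinearOrder R] (κ : Cardinal.{u}) (blk : L → B) :
    GraphName (Cnd R κ blk) L where
  adj p x y := SAdj p.1 x y
  mono h h' := h'.mono h
  symm h := h.symm
  irrefl p x h := by
    rcases h with h | h <;> exact lt_irrefl _ (p.2.edge_vert h).2.2

/-- Adjacency of vertices of a condition is decided by it. -/
theorem adj_of_forces {p : Cnd R κ blk} {x y : L} (hx : vert x ∈ p.1) (hy : vert y ∈ p.1)
    (h : (gname R κ blk).ForcesAdj p x y) : SAdj p.1 x y := by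
  obtain ⟨t, ht, hadj⟩ := h p le_rfl
  rcases lt_trichotomy (blk x) (blk y) with hb | hb | hb
  · rcases p.2.edge_total hx hy hb with h1 | h1
    · exact Or.inl h1
    · rcases hadj with h2 | h2
      · exact (t.2.edge_func h2 (ht h1)).elim
      · exact absurd (t.2.edge_vert h2).2.2 (not_lt.mpr hb.le)
  · rcases hadj with h2 | h2
    · exact absurd (t.2.edge_vert h2).2.2 (by rw [hb]; exact lt_irrefl _)
    · exact absurd (t.2.edge_vert h2).2.2 (by rw [hb]; exact lt_irrefl _)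
  · rcases p.2.edge_total hy hx hb with h1 | h1
    · exact Or.inr h1
    · rcases hadj with h2 | h2
      · exact absurd (t.2.edge_vert h2).2.2 (not_lt.mpr hb.le)
      · exact (t.2.edge_func h2 (ht h1)).elim

/-- The one-vertex condition. -/
theorem isCond_single (hκ : ℵ₀ ≤ κ) (y : L) (r : R) :
    IsCond κ blk ({vert y, rank y ∅ r} : Set (Datum L B R)) := by
  have hCB : ∀ z s, CB ({vert y, rank y ∅ r} : Set (Datum L B R)) z s → s = ∅ := by
    intro z s h
    rw [Finset.eq_empty_iff_forall_notMem]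
    intro x hx
    have := h.1 x hx
    simp at this
  refine ⟨?_, ?_, ?_, ?_, ?_, ?_, ?_, ?_, ?_, ?_⟩
  · exact (Set.Finite.lt_aleph0 (by simp)).trans_le hκ
  · intro x y b h; simp at h
  · intro x z hx hz hb
    simp only [mem_insert_iff, vert.injEq, mem_singleton_iff, reduceCtorEq, or_false] at hx hz
    rw [hx, hz] at hb
    exact absurd hb (lt_irrefl _)
  · intro x y h; simp at h
  · intro z s r' h
    simp only [mem_insert_iff, reduceCtorEq, mem_singleton_iff, rank.injEq, false_or] at h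
    obtain ⟨rfl, rfl, rfl⟩ := h
    exact ⟨by simp, CB.empty _ _⟩
  · intro z s hz hs
    have := hCB z s hs
    subst this
    simp only [mem_insert_iff, vert.injEq, mem_singleton_iff, reduceCtorEq, or_false] at hz
    subst hz
    exact ⟨r, by simp⟩
  · intro z s r1 r2 h1 h2
    simp only [mem_insert_iff, reduceCtorEq, mem_singleton_iff, rank.injEq, false_or] at h1 h2
    rw [h1.2.2, h2.2.2]
  · intro z s r1 s' r2 h1 h2 hs
    simp only [mem_insert_iff, reduceCtorEq, mem_singleton_iff, rank.injEq, false_or] at h1 h2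
    rw [h1.2.1, h2.2.1] at hs
    exact absurd hs (ssubset_irrefl _)
  · intro s h hp; simp at hp
  · intro s h y r hp; simp at hp

/-- the value at `b` of the function in a promise -/
def promVal [OrderBot R] (b : B) : Datum L B R → R
  | prom _ h => h b
  | _ => ⊥

/-- Every vertex can be added to a condition. -/
theorem add_vert [OrderBot R] (hκ : ℵ₀ ≤ κ) (hR1 : ∀ D : Set R, #D < κ → ∃ r, ∀ d ∈ D, d ≤ r)
    (p : Cnd R κ blk) (y : L) : ∃ q, q ≤ p ∧ vert y ∈ q.1 := by
  classical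
  by_cases hy : vert y ∈ p.1
  · exact ⟨p, le_rfl, hy⟩
  obtain ⟨r, hr⟩ := hR1 (promVal (blk y) '' p.1) (mk_image_le.trans_lt p.2.small)
  have hT := isCond_single (blk := blk) hκ y r
  have hvT : ∀ x : L, vert x ∈ ({vert y, rank y ∅ r} : Set (Datum L B R)) → x = y := by
    intro x hx
    simpa using hx
  have h := amalg_isCond (N := False) (ζ := y) (ζ' := y) (f := id) hκ p.2 hT
    (by
      intro x z b h0 h1 _ h2
      rw [hvT x h1] at h0
      exact absurd h0 hy)
    (by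
      intro z s r' h0 h1 _
      rw [hvT z h1] at h0
      exact absurd h0 hy)
    (by
      intro s h z r' hp hr'
      simp only [mem_insert_iff, reduceCtorEq, mem_singleton_iff, rank.injEq, false_or] at hr'
      obtain ⟨rfl, rfl, rfl⟩ := hr'
      exact hr _ ⟨_, hp, rfl⟩)
    (by
      intro s h z r' hp hr'
      simp at hp)
    False.elim False.elim False.elim False.elim False.elim False.elim False.elim
  exact ⟨⟨_, h⟩, left_sub, vert_mem.mpr (Or.inr (by simp))⟩

/-- Two conditions agreeing on the data over a root are compatible. -/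
def DatOver (a : Set L) : Set (Datum L B R) :=
  {d | match d with
    | vert x => x ∈ a
    | edge x y _ => x ∈ a ∧ y ∈ a
    | rank y s _ => y ∈ a ∧ ∀ x ∈ s, x ∈ a
    | prom s _ => ∀ x ∈ s, x ∈ a}

theorem mk_datOver_le (hκ : ℵ₀ ≤ κ) (hR : #R ≤ 2 ^ κ) (hBR : #(B → R) ≤ 2 ^ κ) (a : Set L)
    (ha : #a ≤ 2 ^ κ) : #(DatOver a : Set (Datum L B R)) ≤ 2 ^ κ := by
  classical
  have hθ0 : ℵ₀ ≤ (2 ^ κ : Cardinal.{u}) := hκ.trans (cantor κ).le
  have hmul : ∀ {c d : Cardinal.{u}}, c ≤ 2 ^ κ → d ≤ 2 ^ κ → c * d ≤ 2 ^ κ := fun hc hd =>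
    (mul_le_mul' hc hd).trans (mul_eq_self hθ0).le
  have hadd : ∀ {c d : Cardinal.{u}}, c ≤ 2 ^ κ → d ≤ 2 ^ κ → c + d ≤ 2 ^ κ := fun hc hd =>
    (add_le_add hc hd).trans (add_eq_self hθ0).le
  have hfin : #(Finset a) ≤ 2 ^ κ := by
    rcases finite_or_infinite a with h | h
    · exact (lt_aleph0_of_finite _).le.trans hθ0
    · rw [mk_finset_of_infinite]; exact ha
  let g : (a ⊕ (a × a × ULift.{u} Bool)) ⊕ ((a × Finset a × R) ⊕ (Finset a × (B → R))) →
      Datum L B R := fun t => match t with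
    | Sum.inl (Sum.inl x) => vert x
    | Sum.inl (Sum.inr ⟨x, y, b⟩) => edge x y b.down
    | Sum.inr (Sum.inl ⟨y, s, r⟩) => rank y (s.map ⟨Subtype.val, Subtype.val_injective⟩) r
    | Sum.inr (Sum.inr ⟨s, h⟩) => prom (s.map ⟨Subtype.val, Subtype.val_injective⟩) h
  have hsub : (DatOver a : Set (Datum L B R)) ⊆ Set.range g := by
    have hlift : ∀ s : Finset L, (∀ x ∈ s, x ∈ a) → 
        ∃ s' : Finset a, s'.map ⟨Subtype.val, Subtype.val_injective⟩ = s := by
      intro s hs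
      refine ⟨s.subtype (· ∈ a), ?_⟩
      ext x
      simp only [Finset.mem_map, Finset.mem_subtype, Function.Embedding.coeFn_mk, Subtype.exists,
        exists_and_left, exists_prop, exists_eq_right_right]
      exact ⟨fun h => h.1, fun h => ⟨h, hs x h⟩⟩
    rintro (x | ⟨x, y, b⟩ | ⟨y, s, r⟩ | ⟨s, h⟩) hd
    · exact ⟨Sum.inl (Sum.inl ⟨x, hd⟩), rfl⟩
    · exact ⟨Sum.inl (Sum.inr ⟨⟨x, hd.1⟩, ⟨y, hd.2⟩, ⟨b⟩⟩), rfl⟩
    · obtain ⟨s', hs'⟩ := hlift s hd.2
      exact ⟨Sum.inr (Sum.inl ⟨⟨y, hd.1⟩, s', r⟩), by simp only [g, hs']⟩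
    · obtain ⟨s', hs'⟩ := hlift s hd
      exact ⟨Sum.inr (Sum.inr ⟨s', h⟩), by simp only [g, hs']⟩
  refine (mk_le_mk_of_subset hsub).trans (mk_range_le.trans ?_)
  simp only [mk_sum, mk_prod, lift_id]
  refine hadd (hadd ha (hmul ha (hmul ha ?_))) (hadd (hmul ha (hmul hfin hR)) (hmul hfin hBR))
  exact (lt_aleph0_of_finite _).le.trans hθ0

/-- the vertices of a set of data -/
def verts (S : Set (Datum L B R)) : Set L := {x | vert x ∈ S}

theorem mk_verts_le (S : Set (Datum L B R)) : #(verts S) ≤ #S := by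
  refine mk_le_of_injective (f := fun x : verts S => (⟨vert x.1, x.2⟩ : S)) ?_
  intro x y h
  simpa [Subtype.ext_iff] using h

/-- agreement of the edges over a common root transfers -/
theorem edge_transfer {S T : Set (Datum L B R)} (hS : IsCond κ blk S) (hT : IsCond κ blk T)
    {r : Set (Datum L B R)} (hrT : r ⊆ T) (hr : S ∩ DatOver (verts r) ⊆ r)
    (hcap : ∀ x, vert x ∈ S → vert x ∈ T → x ∈ verts r) (x y : L) (b : Bool)
    (hx : vert x ∈ S) (hx' : vert x ∈ T) (hy : vert y ∈ S) (hy' : vert y ∈ T) :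
    (edge x y b ∈ S ↔ edge x y b ∈ T) := by
  have hxa := hcap x hx hx'
  have hya := hcap y hy hy'
  have key : ∀ c, edge x y c ∈ S → edge x y c ∈ T := fun c h => hrT (hr ⟨h, hxa, hya⟩)
  refine ⟨key b, fun h => ?_⟩
  rcases hS.edge_total hx hy (hT.edge_vert h).2.2 with h1 | h1
  · cases b
    · exact (hT.edge_func (key _ h1) h).elim
    · exact h1
  · cases b
    · exact h1
    · exact (hT.edge_func h (key _ h1)).elim

theorem rank_transfer {S T : Set (Datum L B R)} (hS : IsCond κ blk S) (hT : IsCond κ blk T)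
    {r : Set (Datum L B R)} (hrT : r ⊆ T) (hr : S ∩ DatOver (verts r) ⊆ r)
    (hcap : ∀ x, vert x ∈ S → vert x ∈ T → x ∈ verts r) (y : L) (s : Finset L) (ρ : R)
    (hy : vert y ∈ S) (hy' : vert y ∈ T) (hs : ∀ x ∈ s, vert x ∈ S ∧ vert x ∈ T) :
    (rank y s ρ ∈ S ↔ rank y s ρ ∈ T) := by
  have hya := hcap y hy hy'
  have hsa : ∀ x ∈ s, x ∈ verts r := fun x hx => hcap x (hs x hx).1 (hs x hx).2
  have key : ∀ c, rank y s c ∈ S → rank y s c ∈ T := fun c h => hrT (hr ⟨h, hya, hsa⟩)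
  have he := edge_transfer hS hT hrT hr hcap
  refine ⟨key ρ, fun h => ?_⟩
  have hCB : CB S y s := by
    have h2 := (hT.rank_dom h).2
    refine ⟨fun x hx => (he x y true (hs x hx).1 (hs x hx).2 hy hy').mpr (h2.1 x hx), ?_⟩
    intro x hx z hz hne
    exact (h2.2 x hx z hz hne).imp
      (he x z true (hs x hx).1 (hs x hx).2 (hs z hz).1 (hs z hz).2).mpr
      (he z x true (hs z hz).1 (hs z hz).2 (hs x hx).1 (hs x hx).2).mpr
  obtain ⟨ρ', hρ'⟩ := hS.rank_total hy hCB
  rw [hT.rank_func h (key _ hρ')]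
  exact hρ'

/-- The chain condition. -/
theorem cnd_antichainsLE [Nonempty L] (hκ : ℵ₀ ≤ κ) (hR : #R ≤ 2 ^ κ) (hBR : #(B → R) ≤ 2 ^ κ) :
    AntichainsLE (Cnd R κ blk) (2 ^ κ) := by
  classical
  intro A hA
  by_contra hcon
  rw [not_le] at hcon
  have hθ0 : ℵ₀ ≤ (2 ^ κ : Cardinal.{u}) := hκ.trans (cantor κ).le
  have hκθ : κ ≤ 2 ^ κ := (cantor κ).le
  obtain ⟨r, hrκ, hr⟩ := delta_root κ hκ (fun p : A => p.1.1) (fun p => p.1.2.small) hcon
  have ha : #(verts r) ≤ 2 ^ κ := (mk_verts_le r).trans (hrκ.le.trans hκθ)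
  have hDat := mk_datOver_le (B := B) (R := R) hκ hR hBR (verts r) ha
  obtain ⟨p, -, hp1, hp2⟩ := hr (DatOver (verts r)) ∅ hDat (by simp)
  obtain ⟨q, hqp, hq1, hq2⟩ := hr (DatOver (verts r) ∪ p.1.1) {p}
    ((mk_union_le _ _).trans ((add_le_add hDat (p.1.2.small.le.trans hκθ)).trans
      (add_eq_self hθ0).le))
    (by rw [mk_singleton]; exact one_lt_aleph0.le.trans hθ0)
  have hne : p.1 ≠ q.1 := fun h => hqp (Subtype.ext h.symm)
  apply hA p.1 p.2 q.1 q.2 hne
  have hcap : ∀ x, vert x ∈ p.1.1 → vert x ∈ q.1.1 → x ∈ verts r := fun x h1 h2 =>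
    hq1 ⟨h2, Or.inr h1⟩
  have hcap' : ∀ x, vert x ∈ q.1.1 → vert x ∈ p.1.1 → x ∈ verts r := fun x h1 h2 => hcap x h2 h1
  have hq1' : q.1.1 ∩ DatOver (verts r) ⊆ r := fun d hd => hq1 ⟨hd.1, Or.inl hd.2⟩
  have h := amalg_isCond (N := False) (S := p.1.1) (T := q.1.1) (f := id)
    (ζ := Classical.arbitrary L) (ζ' := Classical.arbitrary L) hκ p.1.2 q.1.2
    (edge_transfer p.1.2 q.1.2 hq2 hp1 hcap)
    (rank_transfer p.1.2 q.1.2 hq2 hp1 hcap)
    (by
      intro s h y ρ hs hρ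
      have : prom s h ∈ q.1.1 := hq2 (hp1 ⟨hs, fun x hx => hcap x (p.1.2.prom_dom hs x hx)
        (q.1.2.cb_vert (q.1.2.rank_dom hρ).2 hx)⟩)
      exact q.1.2.prom_le this hρ)
    (by
      intro s h y ρ hs hρ
      have : prom s h ∈ p.1.1 := hp2 (hq1' ⟨hs, fun x hx => hcap x
        (p.1.2.cb_vert (p.1.2.rank_dom hρ).2 hx) (q.1.2.prom_dom hs x hx)⟩)
      exact p.1.2.prom_le this hρ)
    False.elim False.elim False.elim False.elim False.elim False.elim False.elim
  exact ⟨⟨_, h⟩, left_sub, right_sub⟩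

/-- Adding the promises `prom s h`, `s` a finite set of vertices of `p`, for one function `h`. -/
theorem add_prom (hκ : ℵ₀ < κ) (p : Cnd R κ blk) (h : B → R)
    (hh : ∀ y s r, rank y s r ∈ p.1 → h (blk y) ≤ r) :
    ∃ q : Cnd R κ blk, q ≤ p ∧ (∀ x, vert x ∈ q.1 → vert x ∈ p.1) ∧
      ∀ s : Finset L, (∀ x ∈ s, vert x ∈ p.1) → prom s h ∈ q.1 := by
  classical
  let N : Set (Datum L B R) := {d | ∃ s : Finset L, (∀ x ∈ s, vert x ∈ p.1) ∧ d = prom s h}
  have hN : #N < κ := by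
    have hfin : #(Finset (verts p.1)) < κ := by
      rcases finite_or_infinite (verts p.1) with h' | h'
      · exact (lt_aleph0_of_finite _).trans hκ
      · rw [mk_finset_of_infinite]; exact (mk_verts_le _).trans_lt p.2.small
    let g : Finset (verts p.1) → Datum L B R := fun s =>
      prom (s.map ⟨Subtype.val, Subtype.val_injective⟩) h
    have hsub : N ⊆ Set.range g := by
      rintro _ ⟨s, hs, rfl⟩
      refine ⟨s.subtype (· ∈ verts p.1), ?_⟩
      simp only [g]
      congr 1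
      ext x
      simp only [Finset.mem_map, Finset.mem_subtype, Function.Embedding.coeFn_mk, Subtype.exists,
        exists_and_left, exists_prop, exists_eq_right_right]
      exact ⟨fun h => h.1, fun h => ⟨h, hs x h⟩⟩
    exact (mk_le_mk_of_subset hsub).trans_lt (mk_range_le.trans_lt hfin)
  have hS : ∀ {d : Datum L B R}, (∀ s h', d ≠ prom s h') → (d ∈ p.1 ∪ N ↔ d ∈ p.1) := by
    intro d hd
    refine ⟨fun h' => h'.resolve_right ?_, fun h' => Or.inl h'⟩
    rintro ⟨s, -, rfl⟩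
    exact hd s h rfl
  have hv : ∀ x, (vert x ∈ p.1 ∪ N ↔ vert x ∈ p.1) := fun x => hS (by simp)
  have he : ∀ x y b, (edge x y b ∈ p.1 ∪ N ↔ edge x y b ∈ p.1) := fun x y b => hS (by simp)
  have hr : ∀ y s r, (rank y s r ∈ p.1 ∪ N ↔ rank y s r ∈ p.1) := fun x y b => hS (by simp)
  have hCB : ∀ y s, CB (p.1 ∪ N) y s ↔ CB p.1 y s := by
    intro y s
    unfold CB SAdj
    simp only [he]
  refine ⟨⟨p.1 ∪ N, ?_⟩, subset_union_left, fun x hx => (hv x).mp hx, fun s hs => Or.inr ⟨s, hs, rfl⟩⟩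
  refine ⟨?_, ?_, ?_, ?_, ?_, ?_, ?_, ?_, ?_, ?_⟩
  · exact (mk_union_le _ _).trans_lt (add_lt_of_lt hκ.le p.2.small hN)
  · intro x y b h'
    rw [he] at h'
    rw [hv, hv]
    exact p.2.edge_vert h'
  · intro x y hx hy hb
    rw [hv] at hx hy
    rw [he, he]
    exact p.2.edge_total hx hy hb
  · intro x y h1 h2
    rw [he] at h1 h2
    exact p.2.edge_func h1 h2
  · intro y s r h1
    rw [hr] at h1
    rw [hv, hCB]
    exact p.2.rank_dom h1
  · intro y s h1 h2
    rw [hv] at h1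
    rw [hCB] at h2
    obtain ⟨r, h3⟩ := p.2.rank_total h1 h2
    exact ⟨r, (hr _ _ _).mpr h3⟩
  · intro y s r r' h1 h2
    rw [hr] at h1 h2
    exact p.2.rank_func h1 h2
  · intro y s r s' r' h1 h2 h3
    rw [hr] at h1 h2
    exact p.2.rank_anti h1 h2 h3
  · intro s h' hp x hx
    rw [hv]
    rcases hp with hp | ⟨s', hs', heq⟩
    · exact p.2.prom_dom hp x hx
    · obtain ⟨rfl, rfl⟩ := prom.inj heq
      exact hs' x hx
  · intro s h' y r hp h1
    rw [hr] at h1
    rcases hp with hp | ⟨s', hs', heq⟩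
    · exact p.2.prom_le hp h1
    · obtain ⟨rfl, rfl⟩ := prom.inj heq
      exact hh _ _ _ h1

end Pool.Agent.Helper24
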