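import Mathlib
import Pool.Agent.Helper24.Poset

set_option autoImplicit false
set_option linter.unusedSectionVars false

universe u v w

open Cardinal Set

namespace Pool.Agent.Helper24

open Datum

variable {L B R : Type u} [LinearOrder L] [LinearOrder B] [LinearOrder R]
  {κ μ : Cardinal.{u}} {blk : L → B}

/-- Pigeonhole: if every fibre has size at most `θ` then the domain has size at most `#Y * θ`. -/
theorem mk_le_of_fibres {X Y : Type u} (f : X → Y) (θ : Cardinal.{u})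
    (h : ∀ y, #{x | f x = y} ≤ θ) : #X ≤ #Y * θ := by
  have e : #X = #(Σ y, {x // f x = y}) := mk_congr (Equiv.sigmaFiberEquiv f).symm
  rw [e, mk_sigma]
  calc (sum fun y => #{x // f x = y}) ≤ sum (fun _ : Y => θ) := sum_le_sum _ _ (fun y => h y)
    _ = #Y * θ := sum_const' _ _

/-- No condition forces an independent set of size `μ`. -/
theorem no_independent [OrderBot R] [Nonempty L] (hκ : ℵ₀ < κ)
    (hR : #R ≤ 2 ^ κ) (hBR : #(B → R) ≤ 2 ^ κ) (hBc : #B ≤ 2 ^ κ)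
    (hBb : ∀ s : Set B, #s < κ → ∃ b, ∀ i ∈ s, i < b)
    (hR1 : ∀ D : Set R, #D < κ → ∃ r, ∀ d ∈ D, d ≤ r)
    (hR2 : ∀ γ : R, ∃ γ' : R, ∀ D : Set R, #D < κ → ∃ f : R → R,
      (∀ d ∈ D, γ ≤ f d ∧ f d < γ') ∧ ∀ d ∈ D, ∀ d' ∈ D, d' < d → f d' < f d)
    (hμ : 2 ^ κ < μ) (hL : ∀ b : B, #{x : L | blk x < b} < μ)
    (p : Cnd R κ blk) (X : Type u) (c : FunName (Cnd R κ blk) X L) (hX : μ ≤ #X) :
    ¬ ForcesIndependent (gname R κ blk) p c := by
  classical
  rintro ⟨htot, hind⟩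
  have hθ0 : ℵ₀ ≤ (2 ^ κ : Cardinal.{u}) := hκ.le.trans (cantor κ).le
  have hμ0 : ℵ₀ ≤ μ := hθ0.trans hμ.le
  have hκθ : κ ≤ 2 ^ κ := (cantor κ).le
  have hcc : AntichainsLE (Cnd R κ blk) (2 ^ κ) := cnd_antichainsLE hκ.le hR hBR
  -- deciding values
  have hdec : ∀ (q : Cnd R κ blk), q ≤ p → ∀ (i : X), ∃ q', q' ≤ q ∧ ∃ z, c.forces q' i z ∧
      vert z ∈ q'.1 := by
    intro q hq i
    obtain ⟨q1, h1, z, hz⟩ := htot q hq i
    obtain ⟨q2, h2, hv⟩ := add_vert hκ.le hR1 q1 z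
    exact ⟨q2, h2.trans h1, z, c.mono h2 hz, hv⟩
  -- conditions deciding the same value for different arguments are incompatible
  have hinc : ∀ (I : Set X) (q : X → Cnd R κ blk) (z : L), (∀ i ∈ I, q i ≤ p) →
      (∀ i ∈ I, c.forces (q i) i z) → #I ≤ 2 ^ κ := by
    intro I q z hq hz
    have hinj : ∀ i ∈ I, ∀ j ∈ I, i ≠ j → ¬ ∃ r, r ≤ q i ∧ r ≤ q j := by
      rintro i hi j hj hne ⟨r, hri, hrj⟩
      exact (hind r (hri.trans (hq i hi)) i j hne z z (c.mono hri (hz i hi))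
        (c.mono hrj (hz j hj))).1 rfl
    have hinj' : Set.InjOn q I := by
      intro i hi j hj heq
      by_contra hne
      exact hinj i hi j hj hne ⟨q i, le_rfl, heq.le⟩
    rw [← mk_image_eq_of_injOn _ _ hinj']
    apply hcc
    rintro _ ⟨i, hi, rfl⟩ _ ⟨j, hj, rfl⟩ hne
    exact hinj i hi j hj (fun h => hne (by rw [h]))
  choose q hqp z hz hvz using fun i => hdec p le_rfl i
  -- bounds
  have hδ : ∀ i, ∃ δ : B, ∀ x, vert x ∈ (q i).1 → blk x < δ := by
    intro i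
    obtain ⟨b, hb⟩ := hBb (blk '' verts (q i).1)
      (mk_image_le.trans_lt ((mk_verts_le _).trans_lt (q i).2.small))
    exact ⟨b, fun x hx => hb _ ⟨x, hx, rfl⟩⟩
  have hγ : ∀ i, ∃ γ : B → R, ∀ s h, prom s h ∈ (q i).1 → ∀ b, h b ≤ γ b := by
    intro i
    have : ∀ b, ∃ r : R, ∀ d ∈ promVal b '' (q i).1, d ≤ r := fun b =>
      hR1 _ (mk_image_le.trans_lt (q i).2.small)
    choose γ hγ using this
    exact ⟨γ, fun s h hp b => hγ b _ ⟨_, hp, rfl⟩⟩
  choose δ hδ using hδ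
  choose γ hγ using hγ
  -- uniformize
  obtain ⟨⟨δ0, γ0⟩, hX'⟩ : ∃ t : B × (B → R), 2 ^ κ < #{i | (δ i, γ i) = t} := by
    by_contra hcon
    push Not at hcon
    have h1 := mk_le_of_fibres (fun i => (δ i, γ i)) (2 ^ κ) hcon
    have h2 : #(B × (B → R)) ≤ 2 ^ κ := by
      rw [mk_prod, lift_id, lift_id]
      exact (mul_le_mul' hBc hBR).trans (mul_eq_self hθ0).le
    have h3 : #X ≤ 2 ^ κ := h1.trans ((mul_le_mul' h2 le_rfl).trans (mul_eq_self hθ0).le)
    exact absurd (hμ.trans_le hX) (not_lt.mpr h3)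
  let X' : Set X := {i | (δ i, γ i) = (δ0, γ0)}
  have hδ0 : ∀ i : X', ∀ x, vert x ∈ (q i).1 → blk x < δ0 := by
    intro i x hx
    have : δ i = δ0 := congrArg Prod.fst i.2
    rw [← this]
    exact hδ i x hx
  have hγ0 : ∀ i : X', ∀ s h, prom s h ∈ (q i).1 → ∀ b, h b ≤ γ0 b := by
    intro i s h hp b
    have : γ i = γ0 := congrArg Prod.snd i.2
    rw [← this]
    exact hγ i s h hp b
  obtain ⟨r, hrκ, hr⟩ := delta_root κ hκ.le (fun i : X' => (q i).1) (fun i => (q i).2.small) hX'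
  have ha : #(verts r) < κ := (mk_verts_le r).trans_lt hrκ
  have hDat := mk_datOver_le (B := B) (R := R) hκ.le hR hBR (verts r) (ha.le.trans hκθ)
  -- the exceptional set
  let J : Set X' := {i | z i ∈ verts r}
  have hJ : #J ≤ 2 ^ κ := by
    have h1 := mk_le_of_fibres (fun i : J => (⟨z i.1, i.2⟩ : verts r)) (2 ^ κ) (by
      intro y
      have h2 := hinc {i | z i = y} q y (fun i _ => hqp i) (fun i hi => hi ▸ hz i)
      refine le_trans ?_ h2
      refine mk_le_of_injective (f := fun i => (⟨i.1.1.1, by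
        have := i.2; simp only [mem_ofPred_eq, Subtype.ext_iff] at this; exact this⟩ :
          ({i | z i = y} : Set X))) ?_
      intro i j hij
      simpa [Subtype.ext_iff] using hij)
    exact h1.trans ((mul_le_mul' (ha.le.trans hκθ) le_rfl).trans (mul_eq_self hθ0).le)
  -- the set of conditions incompatible with all good `q i`
  let Q : Set (Cnd R κ blk) := {s | ∀ i : X', i ∉ J →
    (q i).1 ∩ (DatOver (verts r) ∪ s.1) ⊆ r → r ⊆ (q i).1 → ¬ ∃ t, t ≤ s ∧ t ≤ q i}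
  -- the function for the promise
  choose g hg using hR2
  let h0 : B → R := fun b => if b < δ0 then ⊥ else g (γ0 b)
  have hplus : ∀ i : X', ∃ q' : Cnd R κ blk, q' ≤ q i ∧
      ∀ s : Finset L, (∀ x ∈ s, vert x ∈ (q i).1) → prom s h0 ∈ q'.1 := by
    intro i
    obtain ⟨q', h1, -, h2⟩ := add_prom hκ (q i) h0 (by
      intro y s ρ hρ
      have : blk y < δ0 := hδ0 i y ((q i).2.rank_dom hρ).1
      simp only [h0, if_pos this]
      exact bot_le)
    exact ⟨q', h1, h2⟩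
  choose qp hqp1 hqp2 using hplus
  obtain ⟨i0, hi0r, hi0⟩ : ∃ i0 : X', r ⊆ (q i0).1 ∧ ∀ s, s ≤ qp i0 → s ∉ Q := by
    by_contra hcon
    push Not at hcon
    -- a maximal antichain in `Q`
    obtain ⟨M, hM⟩ : ∃ M, Maximal (fun M : Set (Cnd R κ blk) => M ⊆ Q ∧
        ∀ s ∈ M, ∀ t ∈ M, s ≠ t → ¬ ∃ w, w ≤ s ∧ w ≤ t) M := by
      apply zorn_subset
      intro ch hch1 hch2
      refine ⟨⋃₀ ch, ⟨?_, ?_⟩, fun s hs => subset_sUnion_of_mem hs⟩
      · rintro s ⟨m, hm, hs⟩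
        exact (hch1 hm).1 hs
      · rintro s ⟨m, hm, hs⟩ t ⟨m', hm', ht⟩ hne
        rcases hch2.total hm hm' with h | h
        · exact (hch1 hm').2 s (h hs) t ht hne
        · exact (hch1 hm).2 s hs t (h ht) hne
    have hMc : #M ≤ 2 ^ κ := hcc M hM.prop.2
    let v : Set (Datum L B R) := DatOver (verts r) ∪ ⋃ s : M, s.1.1
    have hv : #v ≤ 2 ^ κ := by
      refine (mk_union_le _ _).trans ((add_le_add hDat ?_).trans (add_eq_self hθ0).le)
      refine (mk_iUnion_le _).trans ?_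
      refine (mul_le_mul' hMc (ciSup_le' (fun s => s.1.2.small.le.trans hκθ))).trans
        (mul_eq_self hθ0).le
    obtain ⟨i, hiJ, hi1, hi2⟩ := hr v J hv hJ
    obtain ⟨s, hs1, hs2⟩ := hcon i hi2
    have hincomp : ∀ t ∈ M, ¬ ∃ w, w ≤ t ∧ w ≤ q i := by
      intro t ht
      refine hM.prop.1 ht i hiJ ?_ hi2
      refine Subset.trans (inter_subset_inter_right _ ?_) hi1
      exact union_subset_union_right _ (subset_iUnion (fun s : M => s.1.1) ⟨t, ht⟩)
    have hsM : s ∈ M := by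
      have hbig : (fun M : Set (Cnd R κ blk) => M ⊆ Q ∧
        ∀ s ∈ M, ∀ t ∈ M, s ≠ t → ¬ ∃ w, w ≤ s ∧ w ≤ t) (insert s M) := by
        refine ⟨insert_subset hs2 hM.prop.1, ?_⟩
        intro t ht t' ht' hne
        rcases mem_insert_iff.mp ht with h1 | h1
        · subst h1
          rcases mem_insert_iff.mp ht' with h2 | h2
          · exact absurd h2.symm hne
          · rintro ⟨w, hw1, hw2⟩
            exact hincomp t' h2 ⟨w, hw2, hw1.trans (hs1.trans (hqp1 i))⟩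
        · rcases mem_insert_iff.mp ht' with h2 | h2
          · subst h2
            rintro ⟨w, hw1, hw2⟩
            exact hincomp t h1 ⟨w, hw1, hw2.trans (hs1.trans (hqp1 i))⟩
          · exact hM.prop.2 t h1 t' h2 hne
      exact hM.le_of_ge hbig (subset_insert _ _) (mem_insert _ _)
    exact hincomp s hsM ⟨s, le_rfl, hs1.trans (hqp1 i)⟩
  -- a condition below `qp i0` deciding a value in a high block
  have hi0p : qp i0 ≤ p := (hqp1 i0).trans (hqp i0)
  obtain ⟨t, ht, k, ζ', hk, hζ'v, hζ'b⟩ : ∃ t, t ≤ qp i0 ∧ ∃ k ζ', c.forces t k ζ' ∧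
      vert ζ' ∈ t.1 ∧ δ0 ≤ blk ζ' := by
    by_contra hcon
    push Not at hcon
    choose t ht w hw hwv using fun k => hdec (qp i0) hi0p k
    have hlow : ∀ k, blk (w k) < δ0 := fun k => hcon (t k) (ht k) k (w k) (hw k) (hwv k)
    have h1 := mk_le_of_fibres (fun k => (⟨w k, hlow k⟩ : {x : L | blk x < δ0})) (2 ^ κ) (by
      intro y
      have h2 := hinc {k | w k = y} t y (fun i _ => (ht i).trans hi0p) (fun i hi => hi ▸ hw i)
      refine le_trans ?_ h2
      refine mk_le_of_injective (f := fun i => (⟨i.1, by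
        have := i.2; simp only [mem_ofPred_eq, Subtype.ext_iff] at this; exact this⟩ :
          ({k | w k = y} : Set X))) ?_
      intro i j hij
      simpa [Subtype.ext_iff] using hij)
    have h2 : #{x : L | blk x < δ0} * 2 ^ κ < μ := mul_lt_of_lt hμ0 (hL δ0) hμ
    exact absurd (hX.trans h1) (not_le.mpr h2)
  have htQ := hi0 t ht
  simp only [Q, mem_ofPred_eq, not_forall, not_not] at htQ
  obtain ⟨i, hiJ, hi1, hi2, w, hwt, hwi⟩ := htQ
  have hrt : r ⊆ t.1 := hi0r.trans ((hqp1 i0).trans' ht)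
  have hcap : ∀ x, vert x ∈ (q i).1 → vert x ∈ t.1 → x ∈ verts r := fun x h1 h2 =>
    hi1 ⟨h1, Or.inr h2⟩
  have hi1' : (q i).1 ∩ DatOver (verts r) ⊆ r := fun d hd => hi1 ⟨hd.1, Or.inl hd.2⟩
  have hζt : vert (z i) ∉ t.1 := fun h => hiJ (hcap _ (hvz i) h)
  have hζ'q : vert ζ' ∉ (q i).1 := fun h => absurd (hδ0 i ζ' h) (not_lt.mpr hζ'b)
  -- the collapsing function
  let D : Set R := {ρ | ∃ s, rank ζ' s ρ ∈ t.1}
  have hD : #D < κ := by
    let e : D → t.1 := fun ρ => ⟨rank ζ' ρ.2.choose ρ.1, ρ.2.choose_spec⟩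
    have he : Function.Injective e := by
      intro a b hab
      have := congrArg Subtype.val hab
      simp only [e, rank.injEq, true_and] at this
      exact Subtype.ext this.2
    exact (mk_le_of_injective he).trans_lt t.2.small
  obtain ⟨f, hf1, hf2⟩ := hg (γ0 (blk ζ')) D hD
  have hpr : ∀ s ρ, rank ζ' s ρ ∈ t.1 → (∀ x ∈ s, vert x ∈ (q i).1 ∧ SAdj (q i).1 x (z i)) →
      g (γ0 (blk ζ')) ≤ ρ := by
    intro s ρ hρ hs
    have h1 : prom s h0 ∈ t.1 := by
      apply ht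
      apply hqp2 i0
      intro x hx
      exact hi0r (hcap x (hs x hx).1 (t.2.cb_vert (t.2.rank_dom hρ).2 hx))
    have h2 := t.2.prom_le h1 hρ
    simpa only [h0, if_neg (not_lt.mpr hζ'b)] using h2
  have hU := amalg_isCond (N := True) (S := (q i).1) (T := t.1) (f := f) (ζ := z i) (ζ' := ζ')
    hκ.le (q i).2 t.2
    (edge_transfer (q i).2 t.2 hrt hi1' hcap)
    (rank_transfer (q i).2 t.2 hrt hi1' hcap)
    (by
      intro s h y ρ hs hρ
      exact w.2.prom_le (hwi hs) (hwt hρ))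
    (by
      intro s h y ρ hs hρ
      exact w.2.prom_le (hwt hs) (hwi hρ))
    (fun _ => hvz i) (fun _ => hζt) (fun _ => hζ'v) (fun _ => hζ'q)
    (fun _ x hx => (hδ0 i x hx).trans_le hζ'b)
    (by
      intro _ s ρ hρ hs
      refine ⟨(hf1 ρ ⟨s, hρ⟩).2.trans_le (hpr s ρ hρ hs), ?_⟩
      intro s' h hp
      exact (hγ0 i s' h hp _).trans (hf1 ρ ⟨s, hρ⟩).1)
    (by
      intro _ s ρ s' ρ' hρ _ hρ' _ hlt
      exact hf2 ρ ⟨s, hρ⟩ ρ' ⟨s', hρ'⟩ hlt)
  let U : Cnd R κ blk := ⟨_, hU⟩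
  have hUq : U ≤ q i := left_sub
  have hUt : U ≤ t := right_sub
  have hne : (i : X) ≠ k := by
    intro h
    have : z i = ζ' := c.func (c.mono hUq (hz i)) (h ▸ c.mono hUt hk)
    exact hζt (this ▸ hζ'v)
  have hfin := (hind U (hUq.trans (hqp i)) i k hne (z i) ζ' (c.mono hUq (hz i))
    (c.mono hUt hk)).2 U le_rfl
  exact hfin (Or.inl (edge_true_mem.mpr (Or.inr (Or.inr ⟨trivial, rfl, rfl⟩))))

end Pool.Agent.Helper24
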