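import Mathlib
import Pool.Agent.Helper24.Indep

set_option autoImplicit false
set_option linter.unusedSectionVars false

universe u v w

open Cardinal Set

namespace Pool.Agent.Helper24

open Datum

variable {L B R : Type u} [LinearOrder L] [LinearOrder B] [LinearOrder R]
  {κ μ : Cardinal.{u}} {blk : L → B}

/-- No infinite clique below a vertex of a condition. -/
theorem no_inf_below [WellFoundedLT R] (hmono : Monotone blk) (q : Cnd R κ blk) (y : L)
    (hy : vert y ∈ q.1) (z : ℕ → L) (hz : Function.Injective z) (hzv : ∀ n, vert (z n) ∈ q.1)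
    (hlt : ∀ n, z n < y) (hadj : ∀ n, (gname R κ blk).ForcesAdj q (z n) y)
    (hcl : ∀ m n, m ≠ n → (gname R κ blk).ForcesAdj q (z m) (z n)) : False := by
  refine q.2.no_infinite hy z hz (fun n => ?_) (fun m n hmn =>
    adj_of_forces (hzv m) (hzv n) (hcl m n hmn))
  rcases adj_of_forces (hzv n) hy (hadj n) with h | h
  · exact h
  · exact absurd (q.2.edge_vert h).2.2 (not_lt.mpr (hmono (hlt n).le))

/-- No condition forces a clique of order type `ω + 1`. -/
theorem no_increasing [OrderBot R] [WellFoundedLT R] (hκ : ℵ₀ < κ) (hreg : κ.IsRegular)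
    (hR1 : ∀ D : Set R, #D < κ → ∃ r, ∀ d ∈ D, d ≤ r) (hmono : Monotone blk)
    (p : Cnd R κ blk) (c : FunName (Cnd R κ blk) (WithTop ℕ) L) :
    ¬ ForcesIncreasingClique (gname R κ blk) p c := by
  classical
  rintro ⟨htot, hcl⟩
  have hdec : ∀ (i : WithTop ℕ) (q : Cnd R κ blk), q ≤ p → ∃ q', q' ≤ q ∧
      ∃ z, c.forces q' i z ∧ vert z ∈ q'.1 := by
    intro i q hq
    obtain ⟨q1, h1, z, hz⟩ := htot q hq i
    obtain ⟨q2, h2, hv⟩ := add_vert hκ.le hR1 q1 z
    exact ⟨q2, h2.trans h1, z, c.mono h2 hz, hv⟩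
  obtain ⟨q1, hq1, hq1'⟩ := (cnd_chainClosed (R := R) (blk := blk) hreg).dense_inter hκ
    (fun n q => ∃ z, c.forces q (n : WithTop ℕ) z ∧ vert z ∈ q.1)
    (by
      rintro n p' q' hle ⟨z, h1, h2⟩
      exact ⟨z, c.mono hle h1, hle h2⟩) p
    (fun n q' hq' => hdec n q' hq')
  obtain ⟨q, hq, y, hy, hyv⟩ := hdec ⊤ q1 hq1
  choose z hz hzv using hq1'
  have hqp := hq.trans hq1
  have hzq : ∀ n : ℕ, c.forces q (n : WithTop ℕ) (z n) := fun n => c.mono hq (hz n)
  have hinj : StrictMono z := fun m n hmn =>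
    (hcl q hqp m n (by exact_mod_cast hmn) _ _ (hzq m) (hzq n)).1
  have htop : ∀ n : ℕ, z n < y ∧ (gname R κ blk).ForcesAdj q (z n) y := fun n =>
    hcl q hqp n ⊤ (WithTop.coe_lt_top n) _ _ (hzq n) hy
  have hsym : ∀ {a b : L}, (gname R κ blk).ForcesAdj q a b → (gname R κ blk).ForcesAdj q b a := by
    intro a b h s hs
    obtain ⟨t, ht, hadj⟩ := h s hs
    exact ⟨t, ht, hadj.symm⟩
  refine no_inf_below hmono q y hyv z hinj.injective (fun n => hq (hzv n)) (fun n => (htop n).1)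
    (fun n => (htop n).2) ?_
  intro m n hmn
  rcases lt_or_gt_of_ne hmn with h | h
  · exact (hcl q hqp m n (by exact_mod_cast h) _ _ (hzq m) (hzq n)).2
  · exact hsym (hcl q hqp n m (by exact_mod_cast h) _ _ (hzq n) (hzq m)).2

/-- Below a member of a forced clique there are only finitely many members. -/
theorem finite_below [OrderBot R] [WellFoundedLT R] (hκ : ℵ₀ < κ) (hreg : κ.IsRegular)
    (hR1 : ∀ D : Set R, #D < κ → ∃ r, ∀ d ∈ D, d ≤ r) (hmono : Monotone blk)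
    (p : Cnd R κ blk) {X : Type v} (c : FunName (Cnd R κ blk) X L)
    (hcl : ForcesClique (gname R κ blk) p c) (q : Cnd R κ blk) (hqp : q ≤ p) (i : X) (y : L)
    (hy : c.forces q i y) :
    ∃ r, r ≤ q ∧ ∃ F : Finset X, ∀ k ∉ F, ∀ r', r' ≤ r → ∀ z, c.forces r' k z → ¬ z < y := by
  classical
  by_contra hcon
  push Not at hcon
  let Pr : Cnd R κ blk → X → Prop := fun r k => ∃ z, z < y ∧ c.forces r k z ∧ vert z ∈ r.1
  have hPr : ∀ r r' k, r' ≤ r → Pr r k → Pr r' k := by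
    rintro r r' k hle ⟨z, h1, h2, h3⟩
    exact ⟨z, h1, c.mono hle h2, hle h3⟩
  have hdense : ∀ n : ℕ, ∀ r, r ≤ q → ∃ r', r' ≤ r ∧ ∃ F : Finset X, F.card = n ∧ ∀ k ∈ F, Pr r' k := by
    intro n
    induction n with
    | zero => intro r _; exact ⟨r, le_rfl, ∅, rfl, by simp⟩
    | succ n ih =>
      intro r hr
      obtain ⟨r1, h1, F, hF, hFk⟩ := ih r hr
      obtain ⟨k, hk, r2, h2, z, hz, hzy⟩ := hcon r1 (h1.trans hr) F
      obtain ⟨r3, h3, hv⟩ := add_vert hκ.le hR1 r2 z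
      refine ⟨r3, h3.trans (h2.trans h1), insert k F, by rw [Finset.card_insert_of_notMem hk, hF], ?_⟩
      intro k' hk'
      rcases Finset.mem_insert.mp hk' with rfl | hk'
      · exact ⟨z, hzy, c.mono h3 hz, hv⟩
      · exact hPr _ _ _ (h3.trans h2) (hFk k' hk')
  -- first a condition containing `vert y`
  obtain ⟨q0, hq0, hyv⟩ := add_vert hκ.le hR1 q y
  obtain ⟨r, hr, hrn⟩ := (cnd_chainClosed (R := R) (blk := blk) hreg).dense_inter hκ
    (fun n r => ∃ F : Finset X, F.card = n ∧ ∀ k ∈ F, Pr r k)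
    (by
      rintro n a b hle ⟨F, h1, h2⟩
      exact ⟨F, h1, fun k hk => hPr _ _ _ hle (h2 k hk)⟩) q0
    (fun n a ha => hdense n a (ha.trans hq0))
  have hinf : {k | Pr r k}.Infinite := by
    intro hfin
    obtain ⟨F, h1, h2⟩ := hrn (hfin.toFinset.card + 1)
    have : F ⊆ hfin.toFinset := fun k hk => by simpa using h2 k hk
    have := Finset.card_le_card this
    omega
  have : Infinite {k // Pr r k} := hinf.to_subtype
  let e : ℕ ↪ {k // Pr r k} := Infinite.natEmbedding _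
  choose z hz1 hz2 hz3 using fun n => (e n).2
  have hrp : r ≤ p := hr.trans (hq0.trans hqp)
  have hcl' : ∀ m n, m ≠ n → z m ≠ z n ∧ (gname R κ blk).ForcesAdj r (z m) (z n) := by
    intro m n hmn
    exact hcl.2 r hrp _ _ (fun h => hmn (e.injective (Subtype.ext h))) _ _ (hz2 m) (hz2 n)
  have hyi : ∀ n, (e n : X) ≠ i := by
    intro n h
    have := c.func (c.mono (hr.trans hq0) hy) (h ▸ hz2 n)
    exact absurd (hz1 n) (by rw [this]; exact lt_irrefl _)
  refine no_inf_below hmono r y (hr hyv) z ?_ hz3 hz1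
    (fun n => (hcl.2 r hrp _ _ (hyi n) _ _ (hz2 n) (c.mono (hr.trans hq0) hy)).2)
    (fun m n hmn => (hcl' m n hmn).2)
  intro m n hmn
  by_contra hne
  exact (hcl' m n hne).1 hmn

/-- No condition forces an uncountable clique. -/
theorem no_uncountable_clique [OrderBot R] [WellFoundedLT R] (hκ : ℵ₀ < κ) (hreg : κ.IsRegular)
    (hR1 : ∀ D : Set R, #D < κ → ∃ r, ∀ d ∈ D, d ≤ r) (hmono : Monotone blk)
    (p : Cnd R κ blk) {X : Type v} (c : FunName (Cnd R κ blk) X L) (hX : ℵ₀ < #X) :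
    ¬ ForcesClique (gname R κ blk) p c := by
  classical
  intro hcl0
  obtain ⟨htot, hcl⟩ := id hcl0
  have hdec : ∀ (i : X) (q : Cnd R κ blk), q ≤ p → ∃ q', q' ≤ q ∧ ∃ z, c.forces q' i z ∧
      vert z ∈ q'.1 := by
    intro i q hq
    obtain ⟨q1, h1, z, hz⟩ := htot q hq i
    obtain ⟨q2, h2, hv⟩ := add_vert hκ.le hR1 q1 z
    exact ⟨q2, h2.trans h1, z, c.mono h2 hz, hv⟩
  have : Infinite X := Cardinal.infinite_iff.mpr hX.le
  let e : ℕ ↪ X := Infinite.natEmbedding X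
  obtain ⟨q1, hq1, hq1'⟩ := (cnd_chainClosed (R := R) (blk := blk) hreg).dense_inter hκ
    (fun n q => ∃ z, c.forces q (e n) z ∧ vert z ∈ q.1 ∧
      ∃ F : Finset X, ∀ k ∉ F, ∀ r', r' ≤ q → ∀ w, c.forces r' k w → ¬ w < z)
    (by
      rintro n p' q' hle ⟨z, h1, h2, F, hF⟩
      exact ⟨z, c.mono hle h1, hle h2, F, fun k hk r' hr' => hF k hk r' (hr'.trans hle)⟩) p
    (by
      intro n q hq
      obtain ⟨q', h1, z, hz, hv⟩ := hdec (e n) q hq
      obtain ⟨r, hr, F, hF⟩ := finite_below hκ hreg hR1 hmono p c hcl0 q' (h1.trans hq) (e n) z hz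
      exact ⟨r, hr.trans h1, z, c.mono hr hz, hr hv, F, hF⟩)
  choose z hz hzv F hF using hq1'
  obtain ⟨i, hi⟩ : ∃ i : X, i ∉ (⋃ n, (F n : Set X)) ∪ Set.range e := by
    by_contra hcon
    push Not at hcon
    have h1 : (⋃ n, (F n : Set X)) ∪ Set.range e = Set.univ := Set.eq_univ_of_forall hcon
    have h2 : ((⋃ n, (F n : Set X)) ∪ Set.range e).Countable :=
      (Set.countable_iUnion (fun n => (F n).countable_toSet)).union (Set.countable_range _)
    rw [h1] at h2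
    have h3 : #X ≤ ℵ₀ := by
      rw [← mk_univ]
      exact Cardinal.le_aleph0_iff_set_countable.mpr h2
    exact absurd hX (not_lt.mpr h3)
  obtain ⟨q, hq, y, hy, hyv⟩ := hdec i q1 hq1
  have hqp := hq.trans hq1
  have hie : ∀ n, e n ≠ i := fun n h => hi (Or.inr ⟨n, h⟩)
  have hcl' : ∀ m n, m ≠ n → z m ≠ z n ∧ (gname R κ blk).ForcesAdj q (z m) (z n) := by
    intro m n hmn
    exact hcl q hqp _ _ (fun h => hmn (e.injective h)) _ _ (c.mono hq (hz m)) (c.mono hq (hz n))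
  have hcy : ∀ n, z n ≠ y ∧ (gname R κ blk).ForcesAdj q (z n) y := fun n =>
    hcl q hqp _ _ (hie n) _ _ (c.mono hq (hz n)) hy
  refine no_inf_below hmono q y hyv z ?_ (fun n => hq (hzv n)) ?_ (fun n => (hcy n).2)
    (fun m n hmn => (hcl' m n hmn).2)
  · intro m n hmn
    by_contra hne
    exact (hcl' m n hne).1 hmn
  · intro n
    have h1 : ¬ y < z n := hF n i (fun h => hi (Or.inl (Set.mem_iUnion.mpr ⟨n, h⟩))) q hq y hy
    exact lt_of_le_of_ne (not_lt.mp h1) (hcy n).1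

end Pool.Agent.Helper24
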