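import Mathlib
import Pool.Agent.Helper24.Clique

set_option autoImplicit false
set_option linter.unusedSectionVars false

universe u v w

open Cardinal Set Ordinal

namespace Pool.Agent.Helper24

/-- The rank values: the ordinals below `κ⁺`. -/
abbrev RK (κ : Cardinal.{u}) : Type u := (Order.succ κ).ord.ToType

theorem mk_RK (κ : Cardinal.{u}) : #(RK κ) = Order.succ κ := by
  rw [mk_toType, card_ord]

theorem RK_bound {κ : Cardinal.{u}} (hκ : ℵ₀ ≤ κ) (D : Set (RK κ)) (hD : #D < κ) :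
    ∃ r, ∀ d ∈ D, d ≤ r := by
  by_contra hcon
  push Not at hcon
  have h1 : IsCofinal D := by
    intro r
    obtain ⟨d, hd, hr⟩ := hcon r
    exact ⟨d, hd, hr.le⟩
  have h2 := Order.cof_le h1
  rw [cof_toType, (isRegular_succ hκ).cof_ord] at h2
  exact absurd (hD.trans (Order.lt_succ κ)) (not_lt.mpr h2)

theorem RK_collapse {κ : Cardinal.{u}} (hκ : ℵ₀ ≤ κ) (γ : RK κ) : ∃ γ' : RK κ,
    ∀ D : Set (RK κ), #D < κ → ∃ f : RK κ → RK κ,
      (∀ d ∈ D, γ ≤ f d ∧ f d < γ') ∧ ∀ d ∈ D, ∀ d' ∈ D, d' < d → f d' < f d := by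
  classical
  let e : Set.Iio (Order.succ κ).ord ≃o RK κ := ToType.mk
  let g : Ordinal.{u} := (e.symm γ).1
  have hg : g < (Order.succ κ).ord := (e.symm γ).2
  have hsum : g + κ.ord < (Order.succ κ).ord := by
    rw [lt_ord, card_add, card_ord]
    rw [lt_ord] at hg
    have : g.card ≤ κ := Order.lt_succ_iff.mp hg
    exact ((add_le_add_left this κ).trans (add_eq_self hκ).le).trans_lt (Order.lt_succ κ)
  refine ⟨e ⟨g + κ.ord, hsum⟩, fun D hD => ?_⟩
  have hlt : ∀ x : D, g + typein (α := D) (· < ·) x < g + κ.ord := by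
    intro x
    have h1 : typein (α := D) (· < ·) x < κ.ord := by
      refine (typein_lt_type _ x).trans ?_
      rw [lt_ord, card_type]
      exact hD
    exact (add_lt_add_iff_left g).mpr h1
  refine ⟨fun d => if h : d ∈ D then e ⟨g + typein (α := D) (· < ·) ⟨d, h⟩,
    (hlt ⟨d, h⟩).trans hsum⟩ else d, ?_, ?_⟩
  · intro d hd
    simp only [dif_pos hd]
    constructor
    · rw [← e.symm_apply_le]
      show g ≤ _
      exact le_self_add
    · rw [e.lt_iff_lt]
      exact hlt ⟨d, hd⟩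
  · intro d hd d' hd' hlt'
    simp only [dif_pos hd, dif_pos hd']
    rw [e.lt_iff_lt]
    show g + _ < g + _
    rw [add_lt_add_iff_left]
    exact (typein_lt_typein _).mpr hlt'

/-- Blocks: a cofinal subset of `V` of size `κ`. -/
theorem exists_blocks (κ μ : Cardinal.{u}) (hcof : μ.ord.cof = κ) :
    ∃ (B : Set μ.ord.ToType) (blk : μ.ord.ToType → B), #B = κ ∧ Monotone blk ∧
      (∀ s : Set B, #s < κ → ∃ b, ∀ i ∈ s, i < b) ∧
      ∀ b : B, #{x | blk x < b} < μ := by
  classical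
  have hc : Order.cof μ.ord.ToType = κ := by rw [cof_toType, hcof]
  obtain ⟨B, hB, hBc⟩ := Order.exists_cof_eq μ.ord.ToType
  rw [hc] at hBc
  -- least element of `B` above `x`
  have hex : ∀ x : μ.ord.ToType, ∃ b : B, x ≤ b ∧ ∀ b' : B, x ≤ b' → b ≤ b' := by
    intro x
    obtain ⟨b0, hb0, hxb0⟩ := hB x
    let S : Set B := {b | x ≤ b}
    have hS : S.Nonempty := ⟨⟨b0, hb0⟩, hxb0⟩
    refine ⟨WellFounded.min (wellFounded_lt (α := B)) S hS, WellFounded.min_mem _ S hS, ?_⟩
    intro b' hb'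
    exact not_lt.mp (WellFounded.not_lt_min _ S hb')
  choose blk hblk1 hblk2 using hex
  refine ⟨B, blk, hBc, ?_, ?_, ?_⟩
  · intro x y hxy
    exact hblk2 x _ (hxy.trans (hblk1 y))
  · intro s hs
    by_contra hcon
    push Not at hcon
    have hs' : IsCofinal ((fun b : B => (b : μ.ord.ToType)) '' s) := by
      intro x
      obtain ⟨i, hi, hbi⟩ := hcon (blk x)
      exact ⟨i, ⟨i, hi, rfl⟩, (hblk1 x).trans hbi⟩
    have h2 := Order.cof_le hs'
    rw [hc] at h2
    exact absurd (mk_image_le.trans_lt hs) (not_lt.mpr h2)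
  · intro b
    have hsub : {x | blk x < b} ⊆ Set.Iio (b : μ.ord.ToType) := by
      intro x hx
      exact lt_of_le_of_lt (hblk1 x) hx
    refine (mk_le_mk_of_subset hsub).trans_lt ?_
    exact mk_Iio_toType_ord_lt _

end Pool.Agent.Helper24
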