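import Mathlib
import Pool.Agent.Helper24.Names

/-!
General facts: closed forcing adds no short sequences, and forcing with a chain condition adds no
surjections between sets of sufficiently different sizes.
-/

set_option autoImplicit false

universe u v w

open Cardinal

namespace Pool.Agent.Helper24

variable {P : Type u} [PartialOrder P]

/-- `P` adds no new functions from sets of cardinality `< κ` to ground model sets. -/
def NoNewShortFunctions (P : Type u) [PartialOrder P] (κ : Cardinal.{u}) : Prop :=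
  ∀ (X Y : Type u) (p : P) (c : FunName P X Y), #X < κ → ForcesTotal p c →
    ∃ q, q ≤ p ∧ ∃ f : X → Y, ∀ x, c.forces q x (f x)

/-- `P` adds no surjection from a set `X` onto a set `Y` if `max (#X) θ < #Y`: no condition forces
every element of `Y` to be a value of a function on `X`. In particular all cardinals above `θ` stay
cardinals. -/
def NoCollapseAbove (P : Type u) [PartialOrder P] (θ : Cardinal.{u}) : Prop :=
  ∀ (X Y : Type u) (p : P) (c : FunName P X Y), max (#X) θ < #Y →
    ¬ ∀ q, q ≤ p → ∀ y, ∃ r, r ≤ q ∧ ∃ x, c.forces r x y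

theorem noCollapseAbove {θ : Cardinal.{u}} (hθ : ℵ₀ ≤ θ) (h : AntichainsLE P θ) :
    NoCollapseAbove P θ := by
  classical
  intro X Y p c hXY hsurj
  have h1 : ∀ y, ∃ x, ∃ r, r ≤ p ∧ c.forces r x y := by
    intro y
    obtain ⟨r, hr, x, hx⟩ := hsurj p le_rfl y
    exact ⟨x, r, hr, hx⟩
  choose f r hr hf using h1
  have h2 : #Y ≤ #X * θ := by
    have e : #Y = #(Σ x, {y // f y = x}) := mk_congr (Equiv.sigmaFiberEquiv f).symm
    rw [e, mk_sigma]
    refine (sum_le_sum _ (fun _ => θ) (fun x => ?_)).trans (sum_const' _ _).le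
    have hinj : ∀ y z : {y // f y = x}, y ≠ z → ¬ ∃ w, w ≤ r y ∧ w ≤ r z := by
      rintro y z hne ⟨w, hw1, hw2⟩
      have h3 := c.mono hw1 (hf y)
      have h4 := c.mono hw2 (hf z)
      rw [y.2] at h3
      rw [z.2] at h4
      exact hne (Subtype.ext (c.func h3 h4))
    have hinj' : Function.Injective (fun y : {y // f y = x} => r y) := by
      intro y z hyz
      by_contra hne
      exact hinj y z hne ⟨r y, le_rfl, by
        have : r y = r z := hyz
        exact this.le⟩
    rw [← mk_range_eq _ hinj']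
    apply h
    rintro _ ⟨y, rfl⟩ _ ⟨z, rfl⟩ hne
    exact hinj y z (fun h => hne (by rw [h]))
  have h3 : #X * θ ≤ max (#X) θ := (mul_le_max _ _).trans (by
    rw [max_eq_left (hθ.trans (le_max_right _ _))])
  exact absurd (hXY.trans_le h2) (not_lt.mpr h3)

theorem noNewShortFunctions {κ : Cardinal.{u}} (h : ChainClosed P κ) :
    NoNewShortFunctions P κ := by
  classical
  intro X Y p c hX htot
  obtain ⟨lo, hwf⟩ : ∃ lo : LinearOrder X, @WellFoundedLT X (@Preorder.toLT X
      (@PartialOrder.toPreorder X (@LinearOrder.toPartialOrder X lo))) := by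
    obtain ⟨r, hr⟩ := exists_wellFoundedLT X
    exact ⟨r, hr⟩
  -- the recursion
  let Good : (x : X) → ((y : X) → y < x → P) → P → Prop := fun x g q =>
    q ≤ p ∧ (∀ y (hy : y < x), q ≤ g y hy) ∧ ∃ z, c.forces q x z
  let F : (x : X) → ((y : X) → y < x → P) → P := fun x g =>
    if hg : ∃ q, Good x g q then hg.choose else p
  let G : X → P := (wellFounded_lt (α := X)).fix F
  have hG : ∀ x, G x = F x (fun y _ => G y) := fun x => WellFounded.fix_eq _ _ _
  have key : ∀ x, Good x (fun y _ => G y) (G x) := by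
    intro x
    induction x using WellFoundedLT.induction with
    | ind x ih =>
      have hex : ∃ q, Good x (fun y _ => G y) q := by
        -- the earlier conditions, with `p`, form a chain
        obtain ⟨q, hq⟩ := h (G '' Set.Iio x) (by
          rintro _ ⟨y, hy, rfl⟩ _ ⟨z, hz, rfl⟩ hne
          rcases lt_trichotomy y z with hyz | hyz | hyz
          · exact Or.inr ((ih z hz).2.1 y hyz)
          · exact absurd (by rw [hyz]) hne
          · exact Or.inl ((ih y hy).2.1 z hyz)) 
          (mk_image_le.trans_lt ((mk_set_le _).trans_lt hX))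
        -- make it `≤ p`
        have hq' : ∃ q', q' ≤ p ∧ ∀ y, y < x → q' ≤ G y := by
          by_cases hne : ∃ y, y < x
          · obtain ⟨y, hy⟩ := hne
            exact ⟨q, (hq _ ⟨y, hy, rfl⟩).trans (ih y hy).1, fun z hz => hq _ ⟨z, hz, rfl⟩⟩
          · exact ⟨p, le_rfl, fun y hy => absurd ⟨y, hy⟩ hne⟩
        obtain ⟨q', h1, h2⟩ := hq'
        obtain ⟨r, hr, z, hz⟩ := htot q' h1 x
        exact ⟨r, hr.trans h1, fun y hy => hr.trans (h2 y hy), z, hz⟩
      have : G x = hex.choose := by
        rw [hG x]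
        simp only [F]
        rw [dif_pos hex]
      rw [this]
      exact hex.choose_spec
  obtain ⟨q, hq⟩ := h (Set.range G) (by
    rintro _ ⟨y, rfl⟩ _ ⟨z, rfl⟩ hne
    rcases lt_trichotomy y z with hyz | hyz | hyz
    · exact Or.inr ((key z).2.1 y hyz)
    · exact absurd (by rw [hyz]) hne
    · exact Or.inl ((key y).2.1 z hyz)) (mk_range_le.trans_lt hX)
  choose f hf using fun x => (key x).2.2
  rcases isEmpty_or_nonempty X with hE | ⟨⟨x0⟩⟩
  · exact ⟨p, le_rfl, fun x => (hE.false x).elim, fun x => (hE.false x).elim⟩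
  · exact ⟨q, (hq _ ⟨x0, rfl⟩).trans (key x0).1, f, fun x => c.mono (hq _ ⟨x, rfl⟩) (hf x)⟩

end Pool.Agent.Helper24
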